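import Pool.Agent.helper132_poly.V4

/-! Averages over the grid, counting, and Hölder's inequality. -/

namespace Pool.Agent.helper132_ec

open Finset Pool.Agent.helper132_sph Pool.Agent.helper132_poly

/-- average over the grid. -/
noncomputable def Ev (k N : ℕ) (F : (Fin k → ℕ) → ℝ) : ℝ := (∑ a ∈ gr k N, F a) / (N : ℝ) ^ k

lemma Ev_mono {k N : ℕ} {F G : (Fin k → ℕ) → ℝ} (h : ∀ a, F a ≤ G a) : Ev k N F ≤ Ev k N G := by
  unfold Ev
  exact div_le_div_of_nonneg_right (Finset.sum_le_sum fun a _ => h a) (by positivity)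

lemma Ev_nonneg {k N : ℕ} {F : (Fin k → ℕ) → ℝ} (h : ∀ a, 0 ≤ F a) : 0 ≤ Ev k N F := by
  unfold Ev
  exact div_nonneg (Finset.sum_nonneg fun a _ => h a) (by positivity)

lemma Ev_add {k N : ℕ} (F G : (Fin k → ℕ) → ℝ) :
    Ev k N (fun a => F a + G a) = Ev k N F + Ev k N G := by
  unfold Ev
  rw [Finset.sum_add_distrib, add_div]

lemma Ev_const_mul {k N : ℕ} (c : ℝ) (F : (Fin k → ℕ) → ℝ) :
    Ev k N (fun a => c * F a) = c * Ev k N F := by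
  unfold Ev
  rw [← Finset.mul_sum, mul_div_assoc]

lemma Ev_sum {k N : ℕ} {ι : Type} (I : Finset ι) (F : ι → (Fin k → ℕ) → ℝ) :
    Ev k N (fun a => ∑ i ∈ I, F i a) = ∑ i ∈ I, Ev k N (F i) := by
  unfold Ev
  rw [Finset.sum_comm, Finset.sum_div]

/-- cross counting. -/
lemma cross_eq {k : ℕ} {ι κ : Type} (N : ℕ) (hN : 1 ≤ N) (I : Finset ι) (Φ : ι → Fin k → ℤ)
    (J : Finset κ) (Ψ : κ → Fin k → ℤ) (h : ∀ x ∈ I, ∀ y ∈ J, ∀ j, |Φ x j - Ψ y j| < N) :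
    ∑ a ∈ gr k N, Sg N I Φ a * (starRingEnd ℂ) (Sg N J Ψ a) =
      (N : ℂ) ^ k * (((I ×ˢ J).filter (fun w => Φ w.1 = Ψ w.2)).card : ℂ) := by
  classical
  have h1 := orth N hN (I ×ˢ J) (fun w => Φ w.1 + -Ψ w.2) (by
    intro w hw j
    rw [Finset.mem_product] at hw
    have := h _ hw.1 _ hw.2 j
    rwa [sub_eq_add_neg] at this)
  have f1 : {w ∈ I ×ˢ J | Φ w.1 + -Ψ w.2 = 0} = {w ∈ I ×ˢ J | Φ w.1 = Ψ w.2} := by
    refine Finset.filter_congr fun w _ => ?_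
    rw [← sub_eq_add_neg, sub_eq_zero]
  rw [f1] at h1
  rw [← h1]
  refine Finset.sum_congr rfl fun a _ => ?_
  rw [Sg_conj]
  exact Sg_mul N I Φ J (fun i => -Ψ i) a

lemma cross_le {k : ℕ} {ι κ : Type} (N : ℕ) (hN : 1 ≤ N) (I : Finset ι) (Φ : ι → Fin k → ℤ)
    (J : Finset κ) (Ψ : κ → Fin k → ℤ) (h : ∀ x ∈ I, ∀ y ∈ J, ∀ j, |Φ x j - Ψ y j| < N) :
    (((I ×ˢ J).filter (fun w => Φ w.1 = Ψ w.2)).card : ℝ) ≤
      Ev k N (fun a => ‖Sg N I Φ a‖ * ‖Sg N J Ψ a‖) := by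
  have hNp : (0 : ℝ) < (N : ℝ) ^ k := by
    have : (0 : ℝ) < N := by exact_mod_cast hN
    positivity
  have h1 := congrArg norm (cross_eq N hN I Φ J Ψ h)
  rw [norm_mul, norm_pow, Complex.norm_natCast, Complex.norm_natCast] at h1
  unfold Ev
  rw [le_div_iff₀ hNp, mul_comm, ← h1]
  refine (norm_sum_le _ _).trans (Finset.sum_le_sum fun a _ => ?_)
  rw [norm_mul, RCLike.norm_conj]

lemma moment_Ev {k : ℕ} {ι : Type} (N : ℕ) (hN : 1 ≤ N) (I : Finset ι) (Φ : ι → Fin k → ℤ)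
    (h : ∀ x ∈ I, ∀ y ∈ I, ∀ j, |Φ x j - Φ y j| < N) :
    Ev k N (fun a => ‖Sg N I Φ a‖ ^ 2) = (((I ×ˢ I).filter (fun w => Φ w.1 = Φ w.2)).card : ℝ) := by
  have hNp : (0 : ℝ) < (N : ℝ) ^ k := by
    have : (0 : ℝ) < N := by exact_mod_cast hN
    positivity
  unfold Ev
  rw [moment_eq N hN I Φ h]
  field_simp

/-- weighted Hölder inequality on a finite set. -/
lemma holder_sum {ι : Type} (I : Finset ι) (W T Z : ι → ℝ) (hW : ∀ i, 0 ≤ W i) (hT : ∀ i, 0 ≤ T i)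
    (hZ : ∀ i, 0 ≤ Z i) (n : ℕ) :
    (∑ i ∈ I, W i * (T i * Z i ^ n)) ^ (n + 1) ≤
      (∑ i ∈ I, W i * T i ^ (n + 1)) * (∑ i ∈ I, W i * Z i ^ (n + 1)) ^ n := by
  rcases Nat.eq_zero_or_pos n with h0 | hn
  · subst h0
    simp
  have hnR : (0 : ℝ) < n := by exact_mod_cast hn
  have hn1 : (0 : ℝ) < (n : ℝ) + 1 := by linarith
  obtain ⟨p, hp⟩ : ∃ p : ℝ, p = (n : ℝ) + 1 := ⟨_, rfl⟩
  obtain ⟨q, hq⟩ : ∃ q : ℝ, q = ((n : ℝ) + 1) / n := ⟨_, rfl⟩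
  have hpq : p.HolderConjugate q := by
    rw [Real.holderConjugate_iff]
    refine ⟨by rw [hp]; linarith, ?_⟩
    rw [hp, hq]
    field_simp
    ring
  have h := Real.inner_le_Lp_mul_Lq_of_nonneg I (f := fun i => W i ^ (1 / p) * T i)
    (g := fun i => W i ^ (1 / q) * Z i ^ n) hpq
    (fun i _ => mul_nonneg (Real.rpow_nonneg (hW i) _) (hT i))
    (fun i _ => mul_nonneg (Real.rpow_nonneg (hW i) _) (pow_nonneg (hZ i) _))
  have hp0 : 0 < p := by rw [hp]; linarith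
  have hq0 : 0 < q := by rw [hq]; positivity
  have e1 : ∀ i ∈ I, (W i ^ (1 / p) * T i) * (W i ^ (1 / q) * Z i ^ n) = W i * (T i * Z i ^ n) := by
    intro i _
    have h1 : W i ^ (1 / p) * W i ^ (1 / q) = W i := by
      rcases (hW i).eq_or_lt with h0 | h0
      · rw [← h0, Real.zero_rpow (by positivity), zero_mul]
      · rw [← Real.rpow_add h0, one_div, one_div, hpq.inv_add_inv_eq_one, Real.rpow_one]
    calc (W i ^ (1 / p) * T i) * (W i ^ (1 / q) * Z i ^ n) =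
        (W i ^ (1 / p) * W i ^ (1 / q)) * (T i * Z i ^ n) := by ring
      _ = _ := by rw [h1]
  have e2 : ∀ i ∈ I, (W i ^ (1 / p) * T i) ^ p = W i * T i ^ (n + 1) := by
    intro i _
    rw [Real.mul_rpow (Real.rpow_nonneg (hW i) _) (hT i), ← Real.rpow_mul (hW i), one_div,
      inv_mul_cancel₀ hp0.ne', Real.rpow_one, hp]
    congr 1
    have : (n : ℝ) + 1 = ((n + 1 : ℕ) : ℝ) := by push_cast; ring
    rw [this, Real.rpow_natCast]
  have e3 : ∀ i ∈ I, (W i ^ (1 / q) * Z i ^ n) ^ q = W i * Z i ^ (n + 1) := by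
    intro i _
    rw [Real.mul_rpow (Real.rpow_nonneg (hW i) _) (pow_nonneg (hZ i) _), ← Real.rpow_mul (hW i), one_div,
      inv_mul_cancel₀ hq0.ne', Real.rpow_one]
    congr 1
    rw [← Real.rpow_natCast (Z i) n, ← Real.rpow_mul (hZ i)]
    have : (n : ℝ) * q = ((n + 1 : ℕ) : ℝ) := by rw [hq]; push_cast; field_simp
    rw [this, Real.rpow_natCast]
  rw [Finset.sum_congr rfl e1, Finset.sum_congr rfl e2, Finset.sum_congr rfl e3] at h
  have h0 : 0 ≤ ∑ i ∈ I, W i * (T i * Z i ^ n) :=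
    Finset.sum_nonneg fun i _ => mul_nonneg (hW i) (mul_nonneg (hT i) (pow_nonneg (hZ i) _))
  have h1 : 0 ≤ ∑ i ∈ I, W i * T i ^ (n + 1) :=
    Finset.sum_nonneg fun i _ => mul_nonneg (hW i) (pow_nonneg (hT i) _)
  have h2 : 0 ≤ ∑ i ∈ I, W i * Z i ^ (n + 1) :=
    Finset.sum_nonneg fun i _ => mul_nonneg (hW i) (pow_nonneg (hZ i) _)
  refine (pow_le_pow_left₀ h0 h (n + 1)).trans (le_of_eq ?_)
  rw [mul_pow]
  congr 1
  · rw [← Real.rpow_natCast, ← Real.rpow_mul h1]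
    have : 1 / p * ((n + 1 : ℕ) : ℝ) = 1 := by rw [hp]; push_cast; field_simp
    rw [this, Real.rpow_one]
  · rw [← Real.rpow_natCast, ← Real.rpow_mul h2]
    have : 1 / q * ((n + 1 : ℕ) : ℝ) = n := by rw [hq]; push_cast; field_simp
    rw [this, Real.rpow_natCast]

lemma holder_Ev {k N : ℕ} (hN : 1 ≤ N) (W T Z : (Fin k → ℕ) → ℝ) (hW : ∀ i, 0 ≤ W i)
    (hT : ∀ i, 0 ≤ T i) (hZ : ∀ i, 0 ≤ Z i) (n : ℕ) :
    (Ev k N (fun a => W a * (T a * Z a ^ n))) ^ (n + 1) ≤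
      (Ev k N (fun a => W a * T a ^ (n + 1))) * (Ev k N (fun a => W a * Z a ^ (n + 1))) ^ n := by
  unfold Ev
  have hNp : (0 : ℝ) < (N : ℝ) ^ k := by
    have : (0 : ℝ) < N := by exact_mod_cast hN
    positivity
  have h := holder_sum (gr k N) W T Z hW hT hZ n
  rw [div_pow, div_pow, div_mul_div_comm, ← pow_succ']
  exact div_le_div_of_nonneg_right h (by positivity)

/-- absorbing with Hölder's inequality. -/
lemma absorb {k N : ℕ} (hN : 1 ≤ N) (W T Z : (Fin k → ℕ) → ℝ) (hW : ∀ i, 0 ≤ W i)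
    (hT : ∀ i, 0 ≤ T i) (hZ : ∀ i, 0 ≤ Z i) (n : ℕ) (C : ℝ) (hC : 0 ≤ C)
    (h : Ev k N (fun a => W a * Z a ^ (n + 1)) ≤ C * Ev k N (fun a => W a * (T a * Z a ^ n))) :
    Ev k N (fun a => W a * Z a ^ (n + 1)) ≤ C ^ (n + 1) * Ev k N (fun a => W a * T a ^ (n + 1)) := by
  obtain ⟨I, hI⟩ : ∃ I, I = Ev k N (fun a => W a * Z a ^ (n + 1)) := ⟨_, rfl⟩
  obtain ⟨T', hT'⟩ : ∃ T', T' = Ev k N (fun a => W a * T a ^ (n + 1)) := ⟨_, rfl⟩
  obtain ⟨M, hM⟩ : ∃ M, M = Ev k N (fun a => W a * (T a * Z a ^ n)) := ⟨_, rfl⟩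
  have hh := holder_Ev hN W T Z hW hT hZ n
  rw [← hI, ← hM] at h
  rw [← hI, ← hT']
  rw [← hM, ← hI, ← hT'] at hh
  have hI0 : 0 ≤ I := by
    rw [hI]; exact Ev_nonneg fun a => mul_nonneg (hW a) (pow_nonneg (hZ a) _)
  have hT0 : 0 ≤ T' := by
    rw [hT']; exact Ev_nonneg fun a => mul_nonneg (hW a) (pow_nonneg (hT a) _)
  rcases hI0.eq_or_lt with h0 | h0
  · rw [← h0]; positivity
  have h1 : I ^ (n + 1) ≤ C ^ (n + 1) * (T' * I ^ n) := by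
    calc I ^ (n + 1) ≤ (C * M) ^ (n + 1) := pow_le_pow_left₀ hI0 h _
      _ = C ^ (n + 1) * M ^ (n + 1) := mul_pow _ _ _
      _ ≤ _ := mul_le_mul_of_nonneg_left hh (by positivity)
  have h2 : I ^ n * I ≤ I ^ n * (C ^ (n + 1) * T') := by
    calc I ^ n * I = I ^ (n + 1) := by rw [pow_succ]
      _ ≤ _ := h1
      _ = _ := by ring
  exact le_of_mul_le_mul_left h2 (by positivity)

/-- power mean inequality. -/
lemma pow_sum_le {ι : Type} (I : Finset ι) (f : ι → ℝ) (hf : ∀ i, 0 ≤ f i) (n : ℕ) :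
    (∑ i ∈ I, f i) ^ (n + 1) ≤ (I.card : ℝ) ^ n * ∑ i ∈ I, f i ^ (n + 1) := by
  rcases I.eq_empty_or_nonempty with h0 | hne
  · rw [h0]; simp
  · have h3 := pow_sum_div_card_le_sum_pow (s := I) (f := f) (fun i _ => hf i) n
    have hc : (0 : ℝ) < I.card := by exact_mod_cast hne.card_pos
    rw [div_le_iff₀ (by positivity)] at h3
    rw [mul_comm]
    exact h3

end Pool.Agent.helper132_ec
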