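import Pool.Agent.helper132_ec.E1

/-! The arithmetic lemma of efficient congruencing. -/

namespace Pool.Agent.helper132_ec

open Finset Pool.Agent.helper132_sph Pool.Agent.helper132_poly

/-- translation of moment vectors. -/
def tr (k : ℕ) (r : ℤ) (v : Fin k → ℤ) : Fin k → ℤ := fun j =>
  ∑ m : Fin k, (if (m : ℕ) ≤ (j : ℕ) then
    ((((j : ℕ) + 1).choose ((m : ℕ) + 1) : ℕ) : ℤ) * (-r) ^ ((j : ℕ) - (m : ℕ)) else 0) * v m

lemma tr_add (k : ℕ) (r : ℤ) (v w : Fin k → ℤ) : tr k r (v + w) = tr k r v + tr k r w := by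
  funext j
  unfold tr
  simp only [Pi.add_apply]
  rw [← Finset.sum_add_distrib]
  refine Finset.sum_congr rfl fun m _ => by ring

lemma tr_sub (k : ℕ) (r : ℤ) (v w : Fin k → ℤ) : tr k r (v - w) = tr k r v - tr k r w := by
  funext j
  unfold tr
  simp only [Pi.sub_apply]
  rw [← Finset.sum_sub_distrib]
  refine Finset.sum_congr rfl fun m _ => by ring

lemma tr_sum {ι : Type} (k : ℕ) (r : ℤ) (I : Finset ι) (v : ι → Fin k → ℤ) :
    tr k r (∑ i ∈ I, v i) = ∑ i ∈ I, tr k r (v i) := by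
  funext j
  rw [Finset.sum_apply]
  unfold tr
  rw [Finset.sum_comm]
  refine Finset.sum_congr rfl fun m _ => ?_
  rw [Finset.sum_apply, Finset.mul_sum]

lemma tr_dvd (k : ℕ) (r q : ℤ) (v : Fin k → ℤ) (h : ∀ j, q ∣ v j) (j : Fin k) : q ∣ tr k r v j := by
  unfold tr
  exact Finset.dvd_sum fun m _ => Dvd.dvd.mul_left (h m) _

lemma tr_mom (k : ℕ) (r x : ℤ) (j : Fin k) :
    tr k r (mom k x) j = (x - r) ^ ((j : ℕ) + 1) - (-r) ^ ((j : ℕ) + 1) := by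
  unfold tr mom
  have h1 : (x - r) ^ ((j : ℕ) + 1) = ∑ m ∈ range ((j : ℕ) + 1 + 1),
      x ^ m * (-r) ^ ((j : ℕ) + 1 - m) * ((((j : ℕ) + 1).choose m : ℕ) : ℤ) := by
    rw [sub_eq_add_neg, add_pow]
  rw [h1, Finset.sum_range_succ']
  have h2 : ∑ m : Fin k, (if (m : ℕ) ≤ (j : ℕ) then
      ((((j : ℕ) + 1).choose ((m : ℕ) + 1) : ℕ) : ℤ) * (-r) ^ ((j : ℕ) - (m : ℕ)) else 0) * x ^ ((m : ℕ) + 1) =
      ∑ m ∈ range ((j : ℕ) + 1), x ^ (m + 1) * (-r) ^ ((j : ℕ) + 1 - (m + 1)) *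
        ((((j : ℕ) + 1).choose (m + 1) : ℕ) : ℤ) := by
    rw [Fin.sum_univ_eq_sum_range (fun m => (if m ≤ (j : ℕ) then
      ((((j : ℕ) + 1).choose (m + 1) : ℕ) : ℤ) * (-r) ^ ((j : ℕ) - m) else 0) * x ^ (m + 1)) k]
    have hsub : range ((j : ℕ) + 1) ⊆ range k := Finset.range_subset_range.2 (by omega)
    rw [← Finset.sum_subset hsub]
    · refine Finset.sum_congr rfl fun m hm => ?_
      rw [Finset.mem_range] at hm
      rw [if_pos (by omega)]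
      have : (j : ℕ) + 1 - (m + 1) = (j : ℕ) - m := by omega
      rw [this]
      ring
    · intro m _ hm
      rw [Finset.mem_range] at hm
      rw [if_neg (by omega), zero_mul]
  rw [h2]
  simp

lemma tr_psm (k : ℕ) {s : ℕ} (r : ℤ) (u : Fin s → ℤ) (j : Fin k) :
    tr k r (psm k u) j = ∑ i, (u i - r) ^ ((j : ℕ) + 1) - s * (-r) ^ ((j : ℕ) + 1) := by
  unfold psm
  rw [tr_sum, Finset.sum_apply]
  rw [Finset.sum_congr rfl (fun i _ => tr_mom k r (u i) j), Finset.sum_sub_distrib]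
  simp

lemma mem_of_pow_sums' (p k n : ℕ) (hp : p.Prime) (hn : 1 ≤ n) (hpk : k < p) (x x' : Fin k → ℤ)
    (hinj : ∀ i j, i ≠ j → ¬ (p : ℤ) ∣ x i - x j)
    (h : ∀ j : ℕ, 1 ≤ j → j ≤ k → ((p : ℤ) ^ n) ∣ ∑ i, x i ^ j - ∑ i, x' i ^ j) (i : Fin k) :
    ∃ i', ((p : ℤ) ^ n) ∣ x' i - x i' := by
  classical
  have hpp : Prime (p : ℤ) := Nat.prime_iff_prime_int.1 hp
  have hu : ∀ j : ℕ, 1 ≤ j → j ≤ k → IsUnit ((j : ℕ) : ZMod (p ^ n)) := by
    intro j hj1 hj2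
    rw [ZMod.isUnit_iff_coprime]
    refine Nat.Coprime.pow_right n ?_
    rw [Nat.coprime_comm, Nat.Prime.coprime_iff_not_dvd hp]
    intro hdvd
    have := Nat.le_of_dvd hj1 hdvd
    omega
  have hcast : ((p ^ n : ℕ) : ℤ) = (p : ℤ) ^ n := by push_cast; ring
  have hs : ∀ j : ℕ, 1 ≤ j → j ≤ k → ∑ i, ((x i : ℤ) : ZMod (p ^ n)) ^ j =
      ∑ i, ((x' i : ℤ) : ZMod (p ^ n)) ^ j := by
    intro j hj1 hj2
    have h1 := h j hj1 hj2
    rw [← hcast, ← ZMod.intCast_zmod_eq_zero_iff_dvd] at h1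
    push_cast at h1
    exact sub_eq_zero.1 h1
  have h2 := prod_sub_eq (fun i => ((x i : ℤ) : ZMod (p ^ n))) (fun i => ((x' i : ℤ) : ZMod (p ^ n)))
    hu hs ((x' i : ℤ) : ZMod (p ^ n))
  have h3 : ∏ i', (((x' i : ℤ) : ZMod (p ^ n)) - ((x' i' : ℤ) : ZMod (p ^ n))) = 0 :=
    Finset.prod_eq_zero (Finset.mem_univ i) (sub_self _)
  rw [h3] at h2
  have h4 : ((p : ℤ) ^ n) ∣ ∏ i', (x' i - x i') := by
    rw [← hcast, ← ZMod.intCast_zmod_eq_zero_iff_dvd]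
    push_cast
    exact h2
  have h5 : (p : ℤ) ∣ ∏ i', (x' i - x i') := (dvd_pow_self _ (by omega)).trans h4
  obtain ⟨i0, _, hi0⟩ := (Prime.dvd_finsetProd_iff hpp _).1 h5
  refine ⟨i0, ?_⟩
  rw [← Finset.mul_prod_erase _ _ (Finset.mem_univ i0)] at h4
  refine IsCoprime.dvd_of_dvd_mul_right ?_ h4
  refine IsCoprime.pow_left ?_
  refine IsCoprime.prod_right fun i' hi' => ?_
  rw [Prime.coprime_iff_not_dvd hpp]
  intro hdvd
  refine hinj i0 i' (Finset.ne_of_mem_erase hi').symm ?_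
  have := dvd_sub hdvd hi0
  have e : x' i - x i' - (x' i - x i0) = x i0 - x i' := by ring
  rwa [e] at this

/-- refinement of congruences. -/
lemma refine_card {ι : Type} [DecidableEq ι] {k : ℕ} (A : Finset ι) (R : ι → Fin k → ℤ) (c : Fin k → ℤ) (q : ℕ)
    (hq : 1 ≤ q) (e f : Fin k → ℕ) (h : ∀ x ∈ A, ∀ j, ((q : ℤ) ^ e j) ∣ R x j - c j) (M : ℕ)
    (hM : ∀ x0 ∈ A, (A.filter (fun x => ∀ j, ((q : ℤ) ^ (e j + f j)) ∣ R x0 j - R x j)).card ≤ M) :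
    A.card ≤ M * q ^ (∑ j, f j) := by
  classical
  obtain ⟨T, hT⟩ : ∃ T : Finset (Fin k → ℕ), T = Fintype.piFinset (fun j : Fin k => range (q ^ f j)) :=
    ⟨_, rfl⟩
  have hTcard : T.card = q ^ (∑ j, f j) := by
    rw [hT, Fintype.card_piFinset]
    simp only [Finset.card_range]
    rw [Finset.prod_pow_eq_pow_sum]
  have hq0 : (0 : ℤ) < q := by exact_mod_cast hq
  rw [← hTcard]
  refine Finset.card_le_mul_card_image_of_maps_to (f := fun x => fun j : Fin k =>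
    (((R x j - c j) / (q : ℤ) ^ e j) % ((q : ℤ) ^ f j)).toNat) ?_ M ?_
  · intro x _
    rw [hT, Fintype.mem_piFinset]
    intro j
    rw [Finset.mem_range]
    have hpos : (0 : ℤ) < (q : ℤ) ^ f j := by positivity
    have h1 := Int.emod_lt_of_pos ((R x j - c j) / (q : ℤ) ^ e j) hpos
    have h0 := Int.emod_nonneg ((R x j - c j) / (q : ℤ) ^ e j) hpos.ne'
    have h2 : (((q ^ f j : ℕ)) : ℤ) = (q : ℤ) ^ f j := by push_cast; ring
    rw [← h2] at h1 h0 ⊢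
    omega
  · intro t _
    rcases (A.filter (fun x => (fun j : Fin k =>
      (((R x j - c j) / (q : ℤ) ^ e j) % ((q : ℤ) ^ f j)).toNat) = t)).eq_empty_or_nonempty with h0 | ⟨x0, hx0⟩
    · rw [h0]; simp
    · rw [Finset.mem_filter] at hx0
      obtain ⟨hx0A, hx0t⟩ := hx0
      refine le_trans (Finset.card_le_card ?_) (hM x0 hx0A)
      intro x hx
      rw [Finset.mem_filter] at hx ⊢
      obtain ⟨hxA, hxt⟩ := hx
      refine ⟨hxA, fun j => ?_⟩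
      obtain ⟨a, ha⟩ := h x0 hx0A j
      obtain ⟨b, hb⟩ := h x hxA j
      have e1 := congrFun hx0t j
      have e2 := congrFun hxt j
      have hpj : ((q : ℤ) ^ e j) ≠ 0 := by positivity
      rw [ha, Int.mul_ediv_cancel_left _ hpj] at e1
      rw [hb, Int.mul_ediv_cancel_left _ hpj] at e2
      have hpos : (0 : ℤ) < (q : ℤ) ^ f j := by positivity
      have n1 := Int.emod_nonneg a hpos.ne'
      have n2 := Int.emod_nonneg b hpos.ne'
      have e3 : a % (q : ℤ) ^ f j = b % (q : ℤ) ^ f j := by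
        rw [← Int.toNat_of_nonneg n1, ← Int.toNat_of_nonneg n2, e1, e2]
      have e4 : ((q : ℤ) ^ f j) ∣ a - b :=
        Int.ModEq.dvd (show b ≡ a [ZMOD (q : ℤ) ^ f j] from e3.symm)
      have e5 : R x0 j - R x j = (q : ℤ) ^ e j * (a - b) := by
        rw [mul_sub, ← ha, ← hb]; ring
      rw [e5, pow_add]
      exact mul_dvd_mul_left _ e4

lemma sum_fin_id (k : ℕ) : ∑ j : Fin k, (j : ℕ) = k * (k - 1) / 2 := by
  rw [Fin.sum_univ_eq_sum_range (fun j => j) k, Finset.sum_range_id]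

lemma sum_fin_rev (k : ℕ) : ∑ j : Fin k, (k - 1 - (j : ℕ)) = k * (k - 1) / 2 := by
  rw [Fin.sum_univ_eq_sum_range (fun j => k - 1 - j) k, Finset.sum_range_reflect (fun j => j) k,
    Finset.sum_range_id]

/-- the arithmetic lemma. -/
lemma arith (p k a b : ℕ) (hp : p.Prime) (hk : 2 ≤ k) (hpk : k < p) (hab : a < b) (ξ η : ℤ)
    (c : Fin k → ℤ) (A : Finset (Fin k → ℤ)) (hA : A ⊆ bx k (p ^ (k * b)))
    (hξ : ∀ z ∈ A, ∀ i, ((p : ℤ) ^ a) ∣ z i - ξ)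
    (hinj : ∀ z ∈ A, ∀ i j, i ≠ j → ¬ ((p : ℤ) ^ (a + 1)) ∣ z i - z j)
    (hc : ∀ z ∈ A, ∀ j : Fin k, ((p : ℤ) ^ (b * ((j : ℕ) + 1))) ∣
      ∑ i, (z i - η) ^ ((j : ℕ) + 1) - c j) :
    A.card ≤ k ^ k * p ^ (a * (k * (k - 1) / 2)) * p ^ (b * (k * (k - 1) / 2)) := by
  classical
  have hp0 : (0 : ℤ) < p := by exact_mod_cast hp.pos
  have e1 : ∑ j : Fin k, b * (k - 1 - (j : ℕ)) = b * (k * (k - 1) / 2) := by
    rw [← Finset.mul_sum, sum_fin_rev]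
  have e2 : ∑ j : Fin k, a * (j : ℕ) = a * (k * (k - 1) / 2) := by
    rw [← Finset.mul_sum, sum_fin_id]
  have hkb : a * k < b * k := Nat.mul_lt_mul_of_pos_right hab (by omega)
  rw [← e1]
  refine refine_card A (fun z j => ∑ i, (z i - η) ^ ((j : ℕ) + 1)) c p hp.one_le
    (fun j => b * ((j : ℕ) + 1)) (fun j => b * (k - 1 - (j : ℕ))) hc _ ?_
  intro z0 hz0
  obtain ⟨B, hB⟩ : ∃ B, B = A.filter (fun x => ∀ j : Fin k,
    ((p : ℤ) ^ (b * ((j : ℕ) + 1) + b * (k - 1 - (j : ℕ)))) ∣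
      ∑ i, (z0 i - η) ^ ((j : ℕ) + 1) - ∑ i, (x i - η) ^ ((j : ℕ) + 1)) := ⟨_, rfl⟩
  rw [← hB]
  have hBA : ∀ z ∈ B, z ∈ A := by
    intro z hz
    rw [hB] at hz
    exact (Finset.mem_filter.1 hz).1
  -- write `z i = ξ + p ^ a * y i`
  obtain ⟨Y, hY⟩ : ∃ Y : (Fin k → ℤ) → Fin k → ℤ, Y = fun z i => (z i - ξ) / (p : ℤ) ^ a := ⟨_, rfl⟩
  have hpa : ((p : ℤ) ^ a) ≠ 0 := by positivity
  have hYz : ∀ z ∈ A, ∀ i, z i - ξ = (p : ℤ) ^ a * Y z i := by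
    intro z hz i
    rw [hY]
    exact (Int.mul_ediv_cancel' (hξ z hz i)).symm
  have hBξ : ∀ z ∈ B, ∀ j : Fin k, ((p : ℤ) ^ (k * b)) ∣
      ∑ i, (z0 i - ξ) ^ ((j : ℕ) + 1) - ∑ i, (z i - ξ) ^ ((j : ℕ) + 1) := by
    intro z hz j
    rw [hB, Finset.mem_filter] at hz
    have h1 : ∀ j : Fin k, ((p : ℤ) ^ (k * b)) ∣
        (psm k (fun i => z0 i - η) - psm k (fun i => z i - η)) j := by
      intro j
      have h2 := hz.2 j
      have e3 : b * ((j : ℕ) + 1) + b * (k - 1 - (j : ℕ)) = k * b := by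
        rw [← Nat.mul_add, mul_comm k b]
        congr 1
        omega
      rw [e3] at h2
      rw [Pi.sub_apply, psm_apply, psm_apply]
      exact h2
    have h3 := tr_dvd k (ξ - η) ((p : ℤ) ^ (k * b)) _ h1 j
    rw [tr_sub, Pi.sub_apply, tr_psm, tr_psm] at h3
    have e4 : ∀ w : Fin k → ℤ, ∑ i, (w i - η - (ξ - η)) ^ ((j : ℕ) + 1) = ∑ i, (w i - ξ) ^ ((j : ℕ) + 1) := by
      intro w
      refine Finset.sum_congr rfl fun i _ => ?_
      congr 1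
      ring
    rw [e4, e4] at h3
    convert h3 using 1
    ring
  have hYd : ∀ z ∈ B, ∀ j : Fin k, ((p : ℤ) ^ (k * b - a * ((j : ℕ) + 1))) ∣
      ∑ i, (Y z i) ^ ((j : ℕ) + 1) - ∑ i, (Y z0 i) ^ ((j : ℕ) + 1) := by
    intro z hz j
    have h1 := hBξ z hz j
    have h2 : ∀ w ∈ A, ∑ i, (w i - ξ) ^ ((j : ℕ) + 1) = (p : ℤ) ^ (a * ((j : ℕ) + 1)) * ∑ i, (Y w i) ^ ((j : ℕ) + 1) := by
      intro w hw
      rw [Finset.mul_sum]
      refine Finset.sum_congr rfl fun i _ => ?_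
      rw [hYz w hw i, mul_pow, ← pow_mul]
    rw [h2 z0 hz0, h2 z (hBA z hz), ← mul_sub] at h1
    have hle : a * ((j : ℕ) + 1) ≤ k * b := by
      have h3 : a * ((j : ℕ) + 1) ≤ a * k := Nat.mul_le_mul_left _ (by omega)
      have h4 : k * b = b * k := mul_comm _ _
      omega
    have e3 : (p : ℤ) ^ (k * b) = (p : ℤ) ^ (a * ((j : ℕ) + 1)) * (p : ℤ) ^ (k * b - a * ((j : ℕ) + 1)) := by
      rw [← pow_add]; congr 1; omega
    rw [e3] at h1
    have h5 := (mul_dvd_mul_iff_left (by positivity : ((p : ℤ) ^ (a * ((j : ℕ) + 1))) ≠ 0)).1 h1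
    have e4 : ∑ i, (Y z i) ^ ((j : ℕ) + 1) - ∑ i, (Y z0 i) ^ ((j : ℕ) + 1) =
        -(∑ i, (Y z0 i) ^ ((j : ℕ) + 1) - ∑ i, (Y z i) ^ ((j : ℕ) + 1)) := by ring
    rw [e4]
    exact (dvd_neg).2 h5
  rw [← e2]
  refine refine_card B (fun z j => ∑ i, (Y z i) ^ ((j : ℕ) + 1)) (fun j => ∑ i, (Y z0 i) ^ ((j : ℕ) + 1)) p
    hp.one_le (fun j => k * b - a * ((j : ℕ) + 1)) (fun j => a * (j : ℕ)) hYd _ ?_
  intro z1 hz1
  have hn1 : 1 ≤ k * b - a := by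
    have h1 : a ≤ a * k := Nat.le_mul_of_pos_right _ (by omega)
    have h4 : k * b = b * k := mul_comm _ _
    omega
  have hsub : B.filter (fun x => ∀ j : Fin k, ((p : ℤ) ^ ((k * b - a * ((j : ℕ) + 1)) + a * (j : ℕ))) ∣
      ∑ i, (Y z1 i) ^ ((j : ℕ) + 1) - ∑ i, (Y x i) ^ ((j : ℕ) + 1)) ⊆
      Fintype.piFinset (fun _ : Fin k => Finset.univ.image z1) := by
    intro z hz
    rw [Finset.mem_filter] at hz
    obtain ⟨hzB, hzd⟩ := hz
    rw [Fintype.mem_piFinset]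
    intro i
    have hz1A := hBA z1 hz1
    have hzA := hBA z hzB
    have key : ∀ j : ℕ, 1 ≤ j → j ≤ k → ((p : ℤ) ^ (k * b - a)) ∣ ∑ i, (Y z1 i) ^ j - ∑ i, (Y z i) ^ j := by
      intro j hj1 hj2
      obtain ⟨j', rfl⟩ : ∃ j', j = j' + 1 := ⟨j - 1, by omega⟩
      have h1 := hzd ⟨j', by omega⟩
      simp only at h1
      have e3 : (k * b - a * (j' + 1)) + a * j' = k * b - a := by
        have h3 : a * (j' + 1) ≤ a * k := Nat.mul_le_mul_left _ (by omega)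
        have h4 : k * b = b * k := mul_comm _ _
        have h5 : a * (j' + 1) = a * j' + a := by ring
        omega
      rwa [e3] at h1
    obtain ⟨i', hi'⟩ := mem_of_pow_sums' p k (k * b - a) hp hn1 hpk (Y z1) (Y z) (by
      intro i j hij hd
      refine hinj z1 hz1A i j hij ?_
      have e : z1 i - z1 j = (p : ℤ) ^ a * (Y z1 i - Y z1 j) := by
        rw [mul_sub, ← hYz z1 hz1A, ← hYz z1 hz1A]; ring
      rw [e, pow_succ]
      exact mul_dvd_mul_left _ hd) key i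
    have h6 : ((p : ℤ) ^ (k * b)) ∣ z i - z1 i' := by
      have e : z i - z1 i' = (p : ℤ) ^ a * (Y z i - Y z1 i') := by
        rw [mul_sub, ← hYz z hzA, ← hYz z1 hz1A]; ring
      have e3 : (p : ℤ) ^ (k * b) = (p : ℤ) ^ a * (p : ℤ) ^ (k * b - a) := by
        rw [← pow_add]; congr 1; omega
      rw [e, e3]
      exact mul_dvd_mul_left _ hi'
    have hb1 := mem_bx.1 (hA hzA) i
    have hb2 := mem_bx.1 (hA hz1A) i'
    have hcast : ((p ^ (k * b) : ℕ) : ℤ) = (p : ℤ) ^ (k * b) := by push_cast; ring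
    rw [hcast] at hb1 hb2
    have hz0' : z i - z1 i' = 0 := by
      refine Int.eq_zero_of_abs_lt_dvd h6 ?_
      rw [abs_lt]
      constructor <;> linarith [hb1.1, hb1.2, hb2.1, hb2.2]
    rw [Finset.mem_image]
    exact ⟨i', Finset.mem_univ _, by linarith⟩
  refine (Finset.card_le_card hsub).trans ?_
  rw [Fintype.card_piFinset]
  simp only [Finset.prod_const, Finset.card_univ, Fintype.card_fin]
  refine Nat.pow_le_pow_left ?_ k
  refine Finset.card_image_le.trans ?_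
  simp

end Pool.Agent.helper132_ec
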