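import Pool.Agent.helper132_ec.E2

/-! Residue classes and the conditioning step. -/

namespace Pool.Agent.helper132_ec

open Finset Pool.Agent.helper132_sph Pool.Agent.helper132_poly

/-- residue class in an interval. -/
noncomputable def cl (X q : ℕ) (r : ℤ) : Finset ℤ := (Ico (0 : ℤ) X).filter (fun x => (q : ℤ) ∣ x - r)

/-- tuples. -/
noncomputable def tup (t : ℕ) (c : Finset ℤ) : Finset (Fin t → ℤ) := Fintype.piFinset (fun _ => c)

lemma mem_cl {X q : ℕ} {r x : ℤ} : x ∈ cl X q r ↔ (0 ≤ x ∧ x < X) ∧ (q : ℤ) ∣ x - r := by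
  unfold cl
  rw [Finset.mem_filter, Finset.mem_Ico]

lemma mem_tup {t : ℕ} {c : Finset ℤ} {x : Fin t → ℤ} : x ∈ tup t c ↔ ∀ i, x i ∈ c := by
  unfold tup
  rw [Fintype.mem_piFinset]

lemma cl_sub (X q : ℕ) (r : ℤ) : cl X q r ⊆ Ico (0 : ℤ) X := Finset.filter_subset _ _

lemma tup_sub_bx {t X : ℕ} {c : Finset ℤ} (hc : c ⊆ Ico (0 : ℤ) X) : tup t c ⊆ bx t X := by
  intro x hx
  rw [mem_bx]
  intro i
  exact Finset.mem_Ico.1 (hc (mem_tup.1 hx i))

lemma Sg_tup {k : ℕ} (N t : ℕ) (c : Finset ℤ) (a : Fin k → ℕ) :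
    Sg N (tup t c) (psm k) a = Sg N c (mom k) a ^ t := by
  rw [Sg_pow]
  rfl

lemma cl_mem_iff {X q q' : ℕ} (hq' : 1 ≤ q') (hqq : q ∣ q') {η x : ℤ} (hx : 0 ≤ x ∧ x < X) :
    x ∈ cl X q η ↔ x % (q' : ℤ) ∈ cl q' q η := by
  have hq0 : (0 : ℤ) < q' := by exact_mod_cast hq'
  have h1 := Int.emod_nonneg x hq0.ne'
  have h2 := Int.emod_lt_of_pos x hq0
  rw [mem_cl, mem_cl]
  have h3 : (q : ℤ) ∣ x - x % (q' : ℤ) := by
    have h4 : x - x % (q' : ℤ) = (q' : ℤ) * (x / (q' : ℤ)) := by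
      have := Int.emod_add_mul_ediv x (q' : ℤ)
      linarith
    rw [h4]
    exact Dvd.dvd.mul_right (Int.natCast_dvd_natCast.2 hqq) _
  constructor
  · rintro ⟨_, h5⟩
    refine ⟨⟨h1, h2⟩, ?_⟩
    have : x % (q' : ℤ) - η = (x - η) - (x - x % (q' : ℤ)) := by ring
    rw [this]
    exact dvd_sub h5 h3
  · rintro ⟨_, h5⟩
    refine ⟨hx, ?_⟩
    have : x - η = (x % (q' : ℤ) - η) + (x - x % (q' : ℤ)) := by ring
    rw [this]
    exact dvd_add h5 h3

lemma cl_eq_iff {X q' : ℕ} (hq' : 1 ≤ q') {r x : ℤ} (hr : 0 ≤ r ∧ r < q') (hx : 0 ≤ x ∧ x < X) :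
    x ∈ cl X q' r ↔ x % (q' : ℤ) = r := by
  have hq0 : (0 : ℤ) < q' := by exact_mod_cast hq'
  rw [mem_cl]
  have h4 : x = x % (q' : ℤ) + (q' : ℤ) * (x / (q' : ℤ)) := by
    have := Int.emod_add_mul_ediv x (q' : ℤ)
    linarith
  have h1 := Int.emod_nonneg x hq0.ne'
  have h2 := Int.emod_lt_of_pos x hq0
  constructor
  · rintro ⟨_, h5⟩
    have h6 : (q' : ℤ) ∣ x % (q' : ℤ) - r := by
      have : x % (q' : ℤ) - r = (x - r) - (q' : ℤ) * (x / (q' : ℤ)) := by linarith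
      rw [this]
      exact dvd_sub h5 (dvd_mul_right _ _)
    have h7 : x % (q' : ℤ) - r = 0 := by
      refine Int.eq_zero_of_abs_lt_dvd h6 ?_
      rw [abs_lt]
      constructor <;> linarith [hr.1, hr.2]
    linarith
  · intro h5
    refine ⟨hx, ⟨x / (q' : ℤ), ?_⟩⟩
    linarith

lemma sum_cl {M : Type} [AddCommMonoid M] {X q q' : ℕ} (hq' : 1 ≤ q') (hqq : q ∣ q') (η : ℤ) (g : ℤ → M) :
    ∑ x ∈ cl X q η, g x = ∑ r ∈ cl q' q η, ∑ x ∈ cl X q' r, g x := by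
  classical
  rw [← Finset.sum_fiberwise_of_maps_to (s := cl X q η) (t := cl q' q η) (g := fun x => x % (q' : ℤ))]
  · refine Finset.sum_congr rfl fun r hr => ?_
    refine Finset.sum_congr ?_ fun _ _ => rfl
    ext x
    rw [Finset.mem_filter]
    constructor
    · rintro ⟨h1, h2⟩
      have h3 := (mem_cl.1 h1).1
      exact (cl_eq_iff hq' (mem_cl.1 hr).1 h3).2 h2
    · intro h1
      have h3 := (mem_cl.1 h1).1
      have h4 := (cl_eq_iff hq' (mem_cl.1 hr).1 h3).1 h1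
      refine ⟨?_, h4⟩
      rw [cl_mem_iff hq' hqq h3, h4]
      exact hr
  · intro x hx
    exact (cl_mem_iff hq' hqq (mem_cl.1 hx).1).1 hx

lemma card_cl (q m : ℕ) (hq : 1 ≤ q) (η : ℤ) : (cl (q * m) q η).card ≤ m := by
  classical
  have hq0 : (0 : ℤ) < q := by exact_mod_cast hq
  have h : (cl (q * m) q η).card ≤ (range m).card := by
    refine Finset.card_le_card_of_injOn (fun x => (x / (q : ℤ)).toNat) ?_ ?_
    · intro x hx
      rw [Finset.mem_coe] at hx ⊢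
      obtain ⟨⟨h1, h2⟩, _⟩ := mem_cl.1 hx
      rw [Finset.mem_range]
      have h3 : x / (q : ℤ) < m := by
        refine Int.ediv_lt_of_lt_mul hq0 ?_
        push_cast at h2
        linarith [mul_comm (q : ℤ) m]
      have h4 := Int.ediv_nonneg h1 hq0.le
      beta_reduce
      omega
    · intro x hx y hy hxy
      rw [Finset.mem_coe] at hx hy
      obtain ⟨⟨h1, h2⟩, h3⟩ := mem_cl.1 hx
      obtain ⟨⟨h1', h2'⟩, h3'⟩ := mem_cl.1 hy
      beta_reduce at hxy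
      have h4 := Int.ediv_nonneg h1 hq0.le
      have h4' := Int.ediv_nonneg h1' hq0.le
      have h5 : x / (q : ℤ) = y / (q : ℤ) := by omega
      have h6 : (q : ℤ) ∣ x - y := by
        have : x - y = (x - η) - (y - η) := by ring
        rw [this]
        exact dvd_sub h3 h3'
      have h7 := Int.emod_add_mul_ediv x (q : ℤ)
      have h8 := Int.emod_add_mul_ediv y (q : ℤ)
      have h9 : x % (q : ℤ) = y % (q : ℤ) := Int.ModEq.symm ((Int.modEq_iff_dvd).2 h6)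
      rw [← h7, ← h8, h5, h9]
  rwa [Finset.card_range] at h

/-- the sum over tuples with two coordinates in one class. -/
lemma sing_bound' {k : ℕ} (N X q q' : ℕ) (hq' : 1 ≤ q') (hqq : q ∣ q') (η : ℤ) (a : Fin k → ℕ)
    (i j : Fin k) (hij : i ≠ j) :
    ‖Sg N ((tup k (cl X q η)).filter (fun x => (q' : ℤ) ∣ x i - x j)) (psm k) a‖ ≤
      (∑ r ∈ cl q' q η, ‖Sg N (cl X q' r) (mom k) a‖ ^ 2) * ‖Sg N (cl X q η) (mom k) a‖ ^ (k - 2) := by
  classical
  have hq0 : (0 : ℤ) < q' := by exact_mod_cast hq'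
  have h1 : Sg N ((tup k (cl X q η)).filter (fun x => (q' : ℤ) ∣ x i - x j)) (psm k) a =
      ∑ r ∈ cl q' q η, Sg N (Fintype.piFinset (fun l : Fin k =>
        if l = i ∨ l = j then cl X q' r else cl X q η)) (psm k) a := by
    unfold Sg
    rw [← Finset.sum_fiberwise_of_maps_to (s := (tup k (cl X q η)).filter (fun x => (q' : ℤ) ∣ x i - x j))
      (t := cl q' q η) (g := fun x => x i % (q' : ℤ))]
    · refine Finset.sum_congr rfl fun r hr => ?_
      refine Finset.sum_congr ?_ fun _ _ => rfl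
      ext x
      rw [Finset.mem_filter, Finset.mem_filter, Fintype.mem_piFinset, mem_tup]
      have hr0 := (mem_cl.1 hr).1
      constructor
      · rintro ⟨⟨h1, h2⟩, h3⟩ l
        split_ifs with h
        · rcases h with rfl | rfl
          · exact (cl_eq_iff hq' hr0 (mem_cl.1 (h1 l)).1).2 h3
          · refine (cl_eq_iff hq' hr0 (mem_cl.1 (h1 l)).1).2 ?_
            rw [← h3]
            exact ((Int.modEq_iff_dvd).2 h2)
        · exact h1 l
      · intro h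
        have hi := h i
        have hj := h j
        rw [if_pos (Or.inl rfl)] at hi
        rw [if_pos (Or.inr rfl)] at hj
        have hi0 := (mem_cl.1 hi).1
        have hj0 := (mem_cl.1 hj).1
        have ei := (cl_eq_iff hq' hr0 hi0).1 hi
        have ej := (cl_eq_iff hq' hr0 hj0).1 hj
        refine ⟨⟨fun l => ?_, ?_⟩, ei⟩
        · have hl := h l
          split_ifs at hl with h5
          · have hl0 := (mem_cl.1 hl).1
            have el := (cl_eq_iff hq' hr0 hl0).1 hl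
            rw [cl_mem_iff hq' hqq hl0, el]
            exact hr
          · exact hl
        · exact (Int.modEq_iff_dvd).1 (show x j ≡ x i [ZMOD q'] from ej.trans ei.symm)
    · intro x hx
      rw [Finset.mem_filter, mem_tup] at hx
      exact (cl_mem_iff hq' hqq (mem_cl.1 (hx.1 i)).1).1 (hx.1 i)
  rw [h1]
  refine (norm_sum_le _ _).trans ?_
  rw [Finset.sum_mul]
  refine Finset.sum_le_sum fun r _ => ?_
  have h3 : Sg N (Fintype.piFinset (fun l : Fin k =>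
      if l = i ∨ l = j then cl X q' r else cl X q η)) (psm k) a =
      ∏ l : Fin k, ∑ y ∈ (if l = i ∨ l = j then cl X q' r else cl X q η), eg N a (mom k y) := by
    unfold Sg
    rw [Finset.prod_univ_sum]
    refine Finset.sum_congr rfl fun x _ => ?_
    unfold psm
    rw [eg_sum]
  rw [h3, norm_prod]
  have h4 : ∀ l ∈ (Finset.univ : Finset (Fin k)),
      ‖∑ y ∈ (if l = i ∨ l = j then cl X q' r else cl X q η), eg N a (mom k y)‖ =
      if l = i ∨ l = j then ‖Sg N (cl X q' r) (mom k) a‖ else ‖Sg N (cl X q η) (mom k) a‖ := by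
    intro l _
    split_ifs with h
    · rfl
    · rfl
  rw [Finset.prod_congr rfl h4, Finset.prod_ite, Finset.prod_const, Finset.prod_const]
  have h5 : (Finset.univ.filter (fun l : Fin k => ¬ (l = i ∨ l = j))) = Finset.univ \ {i, j} := by
    ext l
    simp
  have h6 : (Finset.univ.filter (fun l : Fin k => (l = i ∨ l = j))) = {i, j} := by
    ext l
    simp
  rw [h5, h6, Finset.card_sdiff_of_subset (Finset.subset_univ _), Finset.card_univ, Fintype.card_fin,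
    Finset.card_pair hij]

/-- the conditioned tuples. -/
noncomputable def U0 (k X q q' : ℕ) (η : ℤ) : Finset (Fin k → ℤ) :=
  (tup k (cl X q η)).filter (fun x => ∀ i j, i ≠ j → ¬ (q' : ℤ) ∣ x i - x j)

/-- counting with a first block in `U`. -/
noncomputable def cnt {k : ℕ} {ι : Type} (D : Finset ι) (Φ : ι → Fin k → ℤ) (U : Finset (Fin k → ℤ))
    (t : ℕ) (c : Finset ℤ) : ℕ :=
  ((((D ×ˢ U) ×ˢ tup (t - k) c) ×ˢ (D ×ˢ tup t c)).filter
    (fun w => Φ w.1.1.1 + psm k w.1.1.2 + psm k w.1.2 = Φ w.2.1 + psm k w.2.2)).card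

lemma cnt_eq {k N X : ℕ} {ι : Type} (D : Finset ι) (Φ : ι → Fin k → ℤ) (m t : ℕ) (hkt : k ≤ t)
    (hX : 1 ≤ X) (hD : ∀ i ∈ D, ∀ j, 0 ≤ Φ i j ∧ Φ i j ≤ m * (X : ℤ) ^ k) (hN : (m + t) * X ^ k < N)
    (c : Finset ℤ) (hc : c ⊆ Ico (0 : ℤ) X) (U : Finset (Fin k → ℤ)) (hU : U ⊆ tup k c) :
    ∑ a ∈ gr k N, (Sg N D Φ a * Sg N U (psm k) a * Sg N c (mom k) a ^ (t - k)) *
      (starRingEnd ℂ) (Sg N D Φ a * Sg N c (mom k) a ^ t) = (N : ℂ) ^ k * (cnt D Φ U t c : ℂ) := by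
  classical
  have h := cross_eq N (by omega) ((D ×ˢ U) ×ˢ tup (t - k) c)
    (fun w => Φ w.1.1 + psm k w.1.2 + psm k w.2) (D ×ˢ tup t c) (fun w => Φ w.1 + psm k w.2) (by
      intro x hx y hy j
      rw [Finset.mem_product, Finset.mem_product] at hx
      rw [Finset.mem_product] at hy
      obtain ⟨⟨h1, h2⟩, h3⟩ := hx
      obtain ⟨h4, h5⟩ := hy
      have a1 := hD _ h1 j
      have a2 := psm_bound k k X hX x.1.2 (mem_bx.1 (tup_sub_bx hc (hU h2))) j
      have a3 := psm_bound k (t - k) X hX x.2 (mem_bx.1 (tup_sub_bx hc h3)) j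
      have a4 := hD _ h4 j
      have a5 := psm_bound k t X hX y.2 (mem_bx.1 (tup_sub_bx hc h5)) j
      have h3 : (((m + t) * X ^ k : ℕ) : ℤ) < N := by exact_mod_cast hN
      have h6 : ((t - k : ℕ) : ℤ) = t - k := by push_cast [Nat.cast_sub hkt]; ring
      rw [h6] at a3
      push_cast at h3
      simp only [Pi.add_apply]
      rw [abs_lt]
      constructor <;> linarith [a1.1, a1.2, a2.1, a2.2, a3.1, a3.2, a4.1, a4.2, a5.1, a5.2])
  unfold cnt
  rw [← h]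
  refine Finset.sum_congr rfl fun a _ => ?_
  rw [← Sg_tup, ← Sg_tup]
  congr 1
  · rw [Sg_mul, Sg_mul]
  · rw [Sg_mul]

lemma cnt_le {k N X : ℕ} {ι : Type} (D : Finset ι) (Φ : ι → Fin k → ℤ) (m t : ℕ) (hkt : k ≤ t)
    (hX : 1 ≤ X) (hD : ∀ i ∈ D, ∀ j, 0 ≤ Φ i j ∧ Φ i j ≤ m * (X : ℤ) ^ k) (hN : (m + t) * X ^ k < N)
    (c : Finset ℤ) (hc : c ⊆ Ico (0 : ℤ) X) (U : Finset (Fin k → ℤ)) (hU : U ⊆ tup k c) :
    (cnt D Φ U t c : ℝ) ≤ Ev k N (fun a => ‖Sg N D Φ a‖ ^ 2 *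
      (‖Sg N U (psm k) a‖ * ‖Sg N c (mom k) a‖ ^ (2 * t - k))) := by
  have hNp : (0 : ℝ) < (N : ℝ) ^ k := by
    have : (0 : ℝ) < N := by exact_mod_cast (by omega : 0 < N)
    positivity
  have h1 := congrArg norm (cnt_eq D Φ m t hkt hX hD hN c hc U hU)
  rw [norm_mul, norm_pow, Complex.norm_natCast, Complex.norm_natCast] at h1
  unfold Ev
  rw [le_div_iff₀ hNp, mul_comm, ← h1]
  refine (norm_sum_le _ _).trans (Finset.sum_le_sum fun a _ => le_of_eq ?_)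
  rw [norm_mul, RCLike.norm_conj, norm_mul, norm_mul, norm_mul, norm_pow, norm_pow]
  have : 2 * t - k = (t - k) + t := by omega
  rw [this, pow_add]
  ring

lemma cnt_full {k N X : ℕ} {ι : Type} (D : Finset ι) (Φ : ι → Fin k → ℤ) (m t : ℕ) (hkt : k ≤ t)
    (hX : 1 ≤ X) (hD : ∀ i ∈ D, ∀ j, 0 ≤ Φ i j ∧ Φ i j ≤ m * (X : ℤ) ^ k) (hN : (m + t) * X ^ k < N)
    (c : Finset ℤ) (hc : c ⊆ Ico (0 : ℤ) X) :
    Ev k N (fun a => ‖Sg N D Φ a‖ ^ 2 * ‖Sg N c (mom k) a‖ ^ (2 * t)) = cnt D Φ (tup k c) t c := by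
  have hNp : (0 : ℝ) < (N : ℝ) ^ k := by
    have : (0 : ℝ) < N := by exact_mod_cast (by omega : 0 < N)
    positivity
  have h1 := cnt_eq D Φ m t hkt hX hD hN c hc (tup k c) (Finset.Subset.refl _)
  unfold Ev
  rw [div_eq_iff hNp.ne', mul_comm (cnt D Φ (tup k c) t c : ℝ)]
  have : (((∑ a ∈ gr k N, ‖Sg N D Φ a‖ ^ 2 * ‖Sg N c (mom k) a‖ ^ (2 * t) : ℝ)) : ℂ) =
      (((N : ℝ) ^ k * (cnt D Φ (tup k c) t c : ℝ) : ℝ) : ℂ) := by
    push_cast
    rw [← h1]
    refine Finset.sum_congr rfl fun a _ => ?_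
    rw [Sg_tup]
    have e1 : Sg N D Φ a * Sg N c (mom k) a ^ k * Sg N c (mom k) a ^ (t - k) =
        Sg N D Φ a * Sg N c (mom k) a ^ t := by
      rw [mul_assoc, ← pow_add]
      congr 2
      omega
    rw [e1, Complex.mul_conj', norm_mul, norm_pow]
    push_cast
    rw [mul_pow, ← pow_mul, mul_comm t 2]
  exact_mod_cast this

/-- splitting according to the first block. -/
lemma cond_split {k N X : ℕ} {ι : Type} (hk2 : 2 ≤ k) (D : Finset ι) (Φ : ι → Fin k → ℤ) (m t : ℕ)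
    (hkt : k ≤ t) (hX : 1 ≤ X) (hD : ∀ i ∈ D, ∀ j, 0 ≤ Φ i j ∧ Φ i j ≤ m * (X : ℤ) ^ k)
    (hN : (m + t) * X ^ k < N) (q q' : ℕ) (hq' : 1 ≤ q') (hqq : q ∣ q') (η : ℤ) :
    Ev k N (fun a => ‖Sg N D Φ a‖ ^ 2 * ‖Sg N (cl X q η) (mom k) a‖ ^ (2 * t)) ≤
      Ev k N (fun a => ‖Sg N D Φ a‖ ^ 2 *
        (‖Sg N (U0 k X q q' η) (psm k) a‖ * ‖Sg N (cl X q η) (mom k) a‖ ^ (2 * t - k))) +
      (k : ℝ) ^ 2 * Ev k N (fun a => ‖Sg N D Φ a‖ ^ 2 *
        ((∑ r ∈ cl q' q η, ‖Sg N (cl X q' r) (mom k) a‖ ^ 2) *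
          (‖Sg N (cl X q η) (mom k) a‖ ^ 2) ^ (t - 1))) := by
  classical
  obtain ⟨c, hc⟩ : ∃ c, c = cl X q η := ⟨_, rfl⟩
  have hcs : c ⊆ Ico (0 : ℤ) X := by rw [hc]; exact cl_sub _ _ _
  obtain ⟨Us, hUs⟩ : ∃ Us : Fin k × Fin k → Finset (Fin k → ℤ), Us = fun w =>
    (tup k c).filter (fun x => (q' : ℤ) ∣ x w.1 - x w.2) := ⟨_, rfl⟩
  obtain ⟨O, hO⟩ : ∃ O : Finset (Fin k × Fin k), O = Finset.univ.filter (fun w => w.1 ≠ w.2) := ⟨_, rfl⟩
  have hOc : (O.card : ℝ) ≤ (k : ℝ) ^ 2 := by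
    have h1 : O.card ≤ k * k := by
      rw [hO]
      refine (Finset.card_filter_le _ _).trans ?_
      rw [Finset.card_univ, Fintype.card_prod, Fintype.card_fin]
    calc (O.card : ℝ) ≤ ((k * k : ℕ) : ℝ) := by exact_mod_cast h1
      _ = (k : ℝ) ^ 2 := by push_cast; ring
  have hU0 : U0 k X q q' η ⊆ tup k c := by
    unfold U0
    rw [← hc]
    exact Finset.filter_subset _ _
  have hUsub : ∀ w, Us w ⊆ tup k c := by
    intro w
    rw [hUs]
    exact Finset.filter_subset _ _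
  have hcover : cnt D Φ (tup k c) t c ≤ cnt D Φ (U0 k X q q' η) t c + ∑ w ∈ O, cnt D Φ (Us w) t c := by
    unfold cnt
    obtain ⟨S, hS⟩ : ∃ S : Finset (Fin k → ℤ) → Finset (((ι × (Fin k → ℤ)) × (Fin (t - k) → ℤ)) × (ι × (Fin t → ℤ))),
      S = fun U => (((D ×ˢ U) ×ˢ tup (t - k) c) ×ˢ (D ×ˢ tup t c)).filter
        (fun w => Φ w.1.1.1 + psm k w.1.1.2 + psm k w.1.2 = Φ w.2.1 + psm k w.2.2) := ⟨_, rfl⟩
    have hSd : ∀ U, ((((D ×ˢ U) ×ˢ tup (t - k) c) ×ˢ (D ×ˢ tup t c)).filter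
        (fun w => Φ w.1.1.1 + psm k w.1.1.2 + psm k w.1.2 = Φ w.2.1 + psm k w.2.2)).card = (S U).card := by
      intro U; rw [hS]
    simp only [hSd]
    have h1 : S (tup k c) ⊆ S (U0 k X q q' η) ∪ O.biUnion (fun v => S (Us v)) := by
      intro w hw
      rw [hS] at hw
      beta_reduce at hw
      rw [Finset.mem_filter, Finset.mem_product, Finset.mem_product, Finset.mem_product] at hw
      obtain ⟨⟨⟨⟨h1, h2⟩, h3⟩, h4⟩, h5⟩ := hw
      rw [Finset.mem_union]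
      by_cases hinj : ∀ i j, i ≠ j → ¬ (q' : ℤ) ∣ w.1.1.2 i - w.1.1.2 j
      · left
        rw [hS]
        beta_reduce
        rw [Finset.mem_filter, Finset.mem_product, Finset.mem_product, Finset.mem_product]
        refine ⟨⟨⟨⟨h1, ?_⟩, h3⟩, h4⟩, h5⟩
        unfold U0
        rw [Finset.mem_filter, ← hc]
        exact ⟨h2, hinj⟩
      · right
        push Not at hinj
        obtain ⟨i, j, hij, hd⟩ := hinj
        rw [Finset.mem_biUnion]
        refine ⟨(i, j), ?_, ?_⟩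
        · rw [hO, Finset.mem_filter]
          exact ⟨Finset.mem_univ _, hij⟩
        · rw [hS, hUs]
          beta_reduce
          rw [Finset.mem_filter, Finset.mem_product, Finset.mem_product, Finset.mem_product,
            Finset.mem_filter]
          exact ⟨⟨⟨⟨h1, ⟨h2, hd⟩⟩, h3⟩, h4⟩, h5⟩
    exact ((Finset.card_le_card h1).trans (Finset.card_union_le _ _)).trans
      (Nat.add_le_add_left Finset.card_biUnion_le _)
  have hcovR : (cnt D Φ (tup k c) t c : ℝ) ≤ cnt D Φ (U0 k X q q' η) t c +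
      ∑ w ∈ O, (cnt D Φ (Us w) t c : ℝ) := by exact_mod_cast hcover
  rw [← hc, cnt_full D Φ m t hkt hX hD hN c hcs]
  refine hcovR.trans (add_le_add (cnt_le D Φ m t hkt hX hD hN c hcs _ hU0) ?_)
  obtain ⟨E2, hE2⟩ : ∃ E2 : ℝ, E2 = Ev k N (fun a => ‖Sg N D Φ a‖ ^ 2 *
        ((∑ r ∈ cl q' q η, ‖Sg N (cl X q' r) (mom k) a‖ ^ 2) *
          (‖Sg N c (mom k) a‖ ^ 2) ^ (t - 1))) := ⟨_, rfl⟩
  rw [← hE2]
  have hE20 : 0 ≤ E2 := by
    rw [hE2]
    exact Ev_nonneg fun a => by positivity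
  have hone : ∀ w ∈ O, (cnt D Φ (Us w) t c : ℝ) ≤ E2 := by
    intro w hw
    rw [hO, Finset.mem_filter] at hw
    refine (cnt_le D Φ m t hkt hX hD hN c hcs _ (hUsub w)).trans ?_
    rw [hE2]
    refine Ev_mono fun a => ?_
    refine mul_le_mul_of_nonneg_left ?_ (by positivity)
    have h1 := sing_bound' N X q q' hq' hqq η a w.1 w.2 hw.2
    rw [hUs]
    beta_reduce
    rw [← hc] at h1
    calc ‖Sg N ((tup k c).filter (fun x => (q' : ℤ) ∣ x w.1 - x w.2)) (psm k) a‖ * ‖Sg N c (mom k) a‖ ^ (2 * t - k)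
        ≤ ((∑ r ∈ cl q' q η, ‖Sg N (cl X q' r) (mom k) a‖ ^ 2) * ‖Sg N c (mom k) a‖ ^ (k - 2)) *
          ‖Sg N c (mom k) a‖ ^ (2 * t - k) := mul_le_mul_of_nonneg_right h1 (by positivity)
      _ = _ := by
          rw [mul_assoc, ← pow_add, ← pow_mul]
          congr 2
          omega
  refine (Finset.sum_le_sum hone).trans ?_
  rw [Finset.sum_const, nsmul_eq_mul]
  exact mul_le_mul_of_nonneg_right hOc hE20

end Pool.Agent.helper132_ec
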