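import Pool.Agent.helper132_ec.E3

/-! The congruencing step. -/

namespace Pool.Agent.helper132_ec

open Finset Pool.Agent.helper132_sph Pool.Agent.helper132_poly

/-- conditioned tuples at level `a`. -/
noncomputable def Cd (k X p a : ℕ) (ξ : ℤ) : Finset (Fin k → ℤ) := U0 k X (p ^ a) (p ^ (a + 1)) ξ

lemma Cd_sub_tup (k X p a : ℕ) (ξ : ℤ) : Cd k X p a ξ ⊆ tup k (cl X (p ^ a) ξ) :=
  Finset.filter_subset _ _

lemma Cd_sub_bx (k X p a : ℕ) (ξ : ℤ) : Cd k X p a ξ ⊆ bx k X :=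
  (Cd_sub_tup k X p a ξ).trans (tup_sub_bx (cl_sub _ _ _))

lemma mem_Cd {k X p a : ℕ} {ξ : ℤ} {x : Fin k → ℤ} : x ∈ Cd k X p a ξ ↔
    x ∈ bx k X ∧ (∀ i, ((p : ℤ) ^ a) ∣ x i - ξ) ∧ ∀ i j, i ≠ j → ¬ ((p : ℤ) ^ (a + 1)) ∣ x i - x j := by
  unfold Cd U0
  rw [Finset.mem_filter, mem_tup, mem_bx]
  push_cast
  constructor
  · rintro ⟨h1, h2⟩
    refine ⟨fun i => (mem_cl.1 (h1 i)).1, fun i => ?_, h2⟩
    have := (mem_cl.1 (h1 i)).2
    push_cast at this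
    exact this
  · rintro ⟨h1, h2, h3⟩
    refine ⟨fun i => mem_cl.2 ⟨h1 i, ?_⟩, h3⟩
    push_cast
    exact h2 i

/-- the mean value with congruence conditions. -/
noncomputable def Iab (k N X p a b : ℕ) (ξ η : ℤ) : ℝ :=
  Ev k N (fun α => ‖Sg N (Cd k X p a ξ) (psm k) α‖ ^ 2 * ‖Sg N (cl X (p ^ b) η) (mom k) α‖ ^ (2 * k ^ 2))

/-- the doubly conditioned mean value. -/
noncomputable def Kab (k N X p a b : ℕ) (ξ η : ℤ) : ℝ :=
  Ev k N (fun α => ‖Sg N (Cd k X p a ξ) (psm k) α‖ ^ 2 * ‖Sg N (Cd k X p b η) (psm k) α‖ ^ (2 * k))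

lemma Iab_nonneg (k N X p a b : ℕ) (ξ η : ℤ) : 0 ≤ Iab k N X p a b ξ η :=
  Ev_nonneg fun _ => by positivity

/-- monotonicity in the set. -/
lemma Ev_sq_mono {k : ℕ} {ι : Type} (N X m : ℕ) (I I' : Finset ι) (hI : I ⊆ I') (Φ : ι → Fin k → ℤ)
    (hΦ : ∀ i ∈ I', ∀ j, 0 ≤ Φ i j ∧ Φ i j ≤ m * (X : ℤ) ^ k) (hN : m * X ^ k < N) :
    Ev k N (fun a => ‖Sg N I Φ a‖ ^ 2) ≤ Ev k N (fun a => ‖Sg N I' Φ a‖ ^ 2) := by
  classical
  have hN' : ((m * X ^ k : ℕ) : ℤ) < N := by exact_mod_cast hN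
  push_cast at hN'
  have hb : ∀ x ∈ I', ∀ y ∈ I', ∀ j, |Φ x j - Φ y j| < N := by
    intro x hx y hy j
    have h1 := hΦ x hx j
    have h2 := hΦ y hy j
    rw [abs_lt]
    constructor <;> linarith [h1.1, h1.2, h2.1, h2.2]
  rw [moment_Ev N (by omega) I Φ (fun x hx y hy => hb x (hI hx) y (hI hy)),
    moment_Ev N (by omega) I' Φ hb]
  exact_mod_cast Finset.card_le_card (Finset.filter_subset_filter _ (Finset.product_subset_product hI hI))

/-- mean values over a class. -/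
lemma Ev_cl_le (k s X N q : ℕ) (hX : 1 ≤ X) (hN : s * X ^ k < N) (hq : 1 ≤ q) (η : ℤ) :
    Ev k N (fun a => ‖Sg N (cl X q η) (mom k) a‖ ^ (2 * s)) ≤ Jm k s (X / q + 1) := by
  classical
  have hq0 : (0 : ℤ) < q := by exact_mod_cast hq
  obtain ⟨r, hr⟩ : ∃ r : ℕ, (r : ℤ) = η % q := ⟨(η % q).toNat, Int.toNat_of_nonneg (Int.emod_nonneg _ hq0.ne')⟩
  have hrq : r < q := by
    have := Int.emod_lt_of_pos η hq0
    rw [← hr] at this
    exact_mod_cast this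
  have hcls : tup s (cl X q η) = cls s X q r := by
    unfold tup cls cl
    congr 1
    funext _
    refine Finset.filter_congr fun x _ => ?_
    rw [hr]
    constructor
    · intro h
      exact Int.ModEq.symm ((Int.modEq_iff_dvd).2 h)
    · intro h
      exact (Int.modEq_iff_dvd).1 (show η ≡ x [ZMOD q] from h.symm)
  have h1 : ∀ a : Fin k → ℕ, ‖Sg N (cl X q η) (mom k) a‖ ^ (2 * s) = ‖Sg N (cls s X q r) (psm k) a‖ ^ 2 := by
    intro a
    rw [← hcls, Sg_tup, norm_pow, ← pow_mul, mul_comm]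
  have hsub : cls s X q r ⊆ bx s X := by
    rw [← hcls]
    exact tup_sub_bx (cl_sub _ _ _)
  have hN' : ((s * X ^ k : ℕ) : ℤ) < N := by exact_mod_cast hN
  push_cast at hN'
  simp only [h1]
  rw [moment_Ev N (by omega) (cls s X q r) (psm k) (by
    intro x hx y hy j
    have h1 := psm_bound k s X hX x (mem_bx.1 (hsub hx)) j
    have h2 := psm_bound k s X hX y (mem_bx.1 (hsub hy)) j
    rw [abs_lt]
    constructor <;> linarith [h1.1, h1.2, h2.1, h2.2])]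
  have h2 := fiber_count k s X q r hq hrq 0 0
  have h3 : ((cls s X q r ×ˢ cls s X q r).filter (fun w => psm k w.1 = psm k w.2)).card =
      ((cls s X q r ×ˢ cls s X q r).filter
        (fun w => psm k (0 : Fin k → ℤ) + psm k w.1 = psm k (0 : Fin k → ℤ) + psm k w.2)).card := by
    congr 1
    refine Finset.filter_congr fun w _ => ?_
    exact (add_right_inj _).symm
  rw [h3]
  exact_mod_cast h2

/-- moments of the conditioned sums. -/
lemma Ev_Cd_le (k X N p b : ℕ) (hX : 1 ≤ X) (hN : (k + 1) * k * X ^ k < N) (hp : 1 ≤ p) (η : ℤ) :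
    Ev k N (fun a => ‖Sg N (Cd k X p b η) (psm k) a‖ ^ (2 * (k + 1))) ≤ Jm k ((k + 1) * k) (X / p ^ b + 1) := by
  classical
  have hq : 1 ≤ p ^ b := Nat.one_le_pow _ _ hp
  have h1 : ∀ a : Fin k → ℕ, ‖Sg N (Cd k X p b η) (psm k) a‖ ^ (2 * (k + 1)) =
      ‖Sg N (Fintype.piFinset (fun _ : Fin (k + 1) => Cd k X p b η)) (fun u => ∑ i, psm k (u i)) a‖ ^ 2 := by
    intro a
    rw [← Sg_pow, norm_pow, ← pow_mul, mul_comm]
  have h2 : ∀ a : Fin k → ℕ, ‖Sg N (cl X (p ^ b) η) (mom k) a‖ ^ (2 * ((k + 1) * k)) =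
      ‖Sg N (Fintype.piFinset (fun _ : Fin (k + 1) => tup k (cl X (p ^ b) η))) (fun u => ∑ i, psm k (u i)) a‖ ^ 2 := by
    intro a
    rw [← Sg_pow, Sg_tup, norm_pow, norm_pow, ← pow_mul, ← pow_mul]
    congr 1
    ring
  refine le_trans ?_ (Ev_cl_le k ((k + 1) * k) X N (p ^ b) hX hN hq η)
  simp only [h1, h2]
  refine Ev_sq_mono N X ((k + 1) * k) _ _ ?_ _ ?_ hN
  · intro u hu
    rw [Fintype.mem_piFinset] at hu ⊢
    exact fun i => Cd_sub_tup _ _ _ _ _ (hu i)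
  · intro u hu j
    rw [Fintype.mem_piFinset] at hu
    have h3 : ∀ i, 0 ≤ psm k (u i) j ∧ psm k (u i) j ≤ k * (X : ℤ) ^ k := fun i =>
      psm_bound k k X hX (u i) (mem_bx.1 (tup_sub_bx (cl_sub _ _ _) (hu i))) j
    rw [Finset.sum_apply]
    refine ⟨Finset.sum_nonneg fun i _ => (h3 i).1, ?_⟩
    refine (Finset.sum_le_sum fun i _ => (h3 i).2).trans (le_of_eq ?_)
    rw [Finset.sum_const, Finset.card_univ, Fintype.card_fin]
    push_cast
    ring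

/-- Hölder step. -/
lemma holder_step (k X N p b : ℕ) (hk : 1 ≤ k) (hX : 1 ≤ X) (hN : (k + 1) * k * X ^ k < N) (hp : 1 ≤ p)
    (η ζ : ℤ) :
    (Ev k N (fun a => ‖Sg N (Cd k X p b η) (psm k) a‖ ^ (2 * k) *
      ‖Sg N (cl X (p ^ (k * b)) ζ) (mom k) a‖ ^ (2 * k))) ^ k ≤
      Iab k N X p b (k * b) η ζ * (Jm k ((k + 1) * k) (X / p ^ b + 1) : ℝ) ^ (k - 1) := by
  obtain ⟨n, hn⟩ : ∃ n, k = n + 1 := ⟨k - 1, by omega⟩
  have hN1 : 1 ≤ N := by omega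
  have h := holder_Ev (k := k) hN1 (fun a => ‖Sg N (Cd k X p b η) (psm k) a‖ ^ 2)
    (fun a => ‖Sg N (cl X (p ^ (k * b)) ζ) (mom k) a‖ ^ (2 * k))
    (fun a => ‖Sg N (Cd k X p b η) (psm k) a‖ ^ 2) (fun _ => by positivity) (fun _ => by positivity)
    (fun _ => by positivity) (k - 1)
  have hk1 : k - 1 + 1 = k := by omega
  rw [hk1] at h
  have e1 : Ev k N (fun a => ‖Sg N (Cd k X p b η) (psm k) a‖ ^ (2 * k) *
      ‖Sg N (cl X (p ^ (k * b)) ζ) (mom k) a‖ ^ (2 * k)) =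
      Ev k N (fun a => ‖Sg N (Cd k X p b η) (psm k) a‖ ^ 2 *
        (‖Sg N (cl X (p ^ (k * b)) ζ) (mom k) a‖ ^ (2 * k) *
          (‖Sg N (Cd k X p b η) (psm k) a‖ ^ 2) ^ (k - 1))) := by
    congr 1
    funext a
    have : 2 * k = 2 + 2 * (k - 1) := by omega
    rw [← pow_mul]
    calc ‖Sg N (Cd k X p b η) (psm k) a‖ ^ (2 * k) * ‖Sg N (cl X (p ^ (k * b)) ζ) (mom k) a‖ ^ (2 * k)
        = ‖Sg N (Cd k X p b η) (psm k) a‖ ^ (2 + 2 * (k - 1)) *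
          ‖Sg N (cl X (p ^ (k * b)) ζ) (mom k) a‖ ^ (2 * k) := by rw [← this]
      _ = _ := by rw [pow_add]; ring
  have e2 : Ev k N (fun a => ‖Sg N (Cd k X p b η) (psm k) a‖ ^ 2 *
      (‖Sg N (cl X (p ^ (k * b)) ζ) (mom k) a‖ ^ (2 * k)) ^ k) = Iab k N X p b (k * b) η ζ := by
    unfold Iab
    congr 1
    funext a
    rw [← pow_mul]
    congr 2
    ring
  have e3 : Ev k N (fun a => ‖Sg N (Cd k X p b η) (psm k) a‖ ^ 2 *
      (‖Sg N (Cd k X p b η) (psm k) a‖ ^ 2) ^ k) =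
      Ev k N (fun a => ‖Sg N (Cd k X p b η) (psm k) a‖ ^ (2 * (k + 1))) := by
    congr 1
    funext a
    rw [← pow_mul, ← pow_add]
    congr 1
    ring
  rw [e1]
  refine h.trans ?_
  rw [e2, e3]
  refine mul_le_mul_of_nonneg_left ?_ (Iab_nonneg _ _ _ _ _ _ _ _)
  refine pow_le_pow_left₀ (Ev_nonneg fun _ => by positivity) ?_ _
  exact Ev_Cd_le k X N p b hX hN hp η

/-- trivial bound. -/
lemma trivial_bound (k X N p a b : ℕ) (hX : 1 ≤ X) (hN : (k + 1) * k * X ^ k < N) (hp : 1 ≤ p)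
    (ξ η : ℤ) :
    (Iab k N X p a b ξ η) ^ (k + 1) ≤
      (Jm k ((k + 1) * k) (X / p ^ a + 1) : ℝ) * (Jm k ((k + 1) * k) (X / p ^ b + 1) : ℝ) ^ k := by
  classical
  have hN1 : 1 ≤ N := by omega
  have hqa : 1 ≤ p ^ a := Nat.one_le_pow _ _ hp
  have hqb : 1 ≤ p ^ b := Nat.one_le_pow _ _ hp
  have h0 : Iab k N X p a b ξ η ≤ Ev k N (fun α => 1 * (‖Sg N (cl X (p ^ a) ξ) (mom k) α‖ ^ (2 * k) *
      (‖Sg N (cl X (p ^ b) η) (mom k) α‖ ^ (2 * k)) ^ k)) := by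
    have h1 : Iab k N X p a b ξ η = Ev k N (fun α => ‖Sg N (Cd k X p a ξ ×ˢ tup (k ^ 2) (cl X (p ^ b) η))
        (fun w => psm k w.1 + psm k w.2) α‖ ^ 2) := by
      unfold Iab
      congr 1
      funext α
      rw [← Sg_mul, Sg_tup, norm_mul, norm_pow, mul_pow, ← pow_mul, mul_comm (k ^ 2) 2]
    have h2 : Ev k N (fun α => 1 * (‖Sg N (cl X (p ^ a) ξ) (mom k) α‖ ^ (2 * k) *
      (‖Sg N (cl X (p ^ b) η) (mom k) α‖ ^ (2 * k)) ^ k)) =
      Ev k N (fun α => ‖Sg N (tup k (cl X (p ^ a) ξ) ×ˢ tup (k ^ 2) (cl X (p ^ b) η))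
        (fun w => psm k w.1 + psm k w.2) α‖ ^ 2) := by
      congr 1
      funext α
      rw [← Sg_mul, Sg_tup, Sg_tup, norm_mul, norm_pow, norm_pow, mul_pow, ← pow_mul, ← pow_mul, ← pow_mul,
        one_mul]
      congr 2 <;> ring
    rw [h1, h2]
    refine Ev_sq_mono N X ((k + 1) * k) _ _ (Finset.product_subset_product_left (Cd_sub_tup _ _ _ _ _)) _ ?_ hN
    intro w hw j
    rw [Finset.mem_product] at hw
    have a1 := psm_bound k k X hX w.1 (mem_bx.1 (tup_sub_bx (cl_sub _ _ _) hw.1)) j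
    have a2 := psm_bound k (k ^ 2) X hX w.2 (mem_bx.1 (tup_sub_bx (cl_sub _ _ _) hw.2)) j
    rw [Pi.add_apply]
    refine ⟨by linarith [a1.1, a2.1], ?_⟩
    have e : (((k + 1) * k : ℕ) : ℤ) * (X : ℤ) ^ k = k * (X : ℤ) ^ k + ((k ^ 2 : ℕ) : ℤ) * (X : ℤ) ^ k := by
      push_cast; ring
    rw [e]
    linarith [a1.2, a2.2]
  have h := holder_Ev (k := k) hN1 (fun _ => 1)
    (fun a' => ‖Sg N (cl X (p ^ a) ξ) (mom k) a'‖ ^ (2 * k))
    (fun a' => ‖Sg N (cl X (p ^ b) η) (mom k) a'‖ ^ (2 * k)) (fun _ => by positivity) (fun _ => by positivity)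
    (fun _ => by positivity) k
  refine (pow_le_pow_left₀ (Iab_nonneg _ _ _ _ _ _ _ _) h0 _).trans (h.trans ?_)
  have e1 : ∀ c : ℕ, ∀ r : ℤ, Ev k N (fun a' => 1 * (‖Sg N (cl X (p ^ c) r) (mom k) a'‖ ^ (2 * k)) ^ (k + 1)) =
      Ev k N (fun a' => ‖Sg N (cl X (p ^ c) r) (mom k) a'‖ ^ (2 * ((k + 1) * k))) := by
    intro c r
    congr 1
    funext a'
    rw [one_mul, ← pow_mul]
    congr 1
    ring
  rw [e1, e1]
  refine mul_le_mul (Ev_cl_le k _ X N (p ^ a) hX hN hqa ξ) ?_ (pow_nonneg (Ev_nonneg fun _ => by positivity) _)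
    (Nat.cast_nonneg _)
  exact pow_le_pow_left₀ (Ev_nonneg fun _ => by positivity) (Ev_cl_le k _ X N (p ^ b) hX hN hqb η) _

/-- the conditioning inequality. -/
lemma cond_ineq (k N X p a b : ℕ) (hk : 2 ≤ k) (hX : 1 ≤ X) (hN : (k + 1) * k * X ^ k < N) (hp : 1 ≤ p)
    (ξ η : ℤ) (U : ℝ) (hU0 : 0 ≤ U) (hU : ∀ η', Iab k N X p a (b + 1) ξ η' ≤ U) :
    Iab k N X p a b ξ η ≤ 4 ^ k * Kab k N X p a b ξ η + (2 * (k : ℝ) ^ 2) ^ (k ^ 2) * ((p : ℝ) ^ (k ^ 2) * U) := by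
  classical
  have hN1 : 1 ≤ N := by omega
  have hq' : 1 ≤ p ^ (b + 1) := Nat.one_le_pow _ _ hp
  have hqq : p ^ b ∣ p ^ (b + 1) := pow_dvd_pow _ (by omega)
  have hk2 : k ≤ k ^ 2 := by nlinarith
  obtain ⟨W, hW⟩ : ∃ W : (Fin k → ℕ) → ℝ, W = fun α => ‖Sg N (Cd k X p a ξ) (psm k) α‖ ^ 2 := ⟨_, rfl⟩
  obtain ⟨G, hG⟩ : ∃ G : (Fin k → ℕ) → ℝ, G = fun α => ‖Sg N (Cd k X p b η) (psm k) α‖ := ⟨_, rfl⟩
  obtain ⟨f, hf⟩ : ∃ f : (Fin k → ℕ) → ℝ, f = fun α => ‖Sg N (cl X (p ^ b) η) (mom k) α‖ := ⟨_, rfl⟩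
  obtain ⟨S, hS⟩ : ∃ S : (Fin k → ℕ) → ℝ, S = fun α => ∑ r ∈ cl (p ^ (b + 1)) (p ^ b) η,
    ‖Sg N (cl X (p ^ (b + 1)) r) (mom k) α‖ ^ 2 := ⟨_, rfl⟩
  have hW0 : ∀ α, 0 ≤ W α := fun α => by rw [hW]; positivity
  have hG0 : ∀ α, 0 ≤ G α := fun α => by rw [hG]; positivity
  have hf0 : ∀ α, 0 ≤ f α := fun α => by rw [hf]; positivity
  have hS0 : ∀ α, 0 ≤ S α := fun α => by rw [hS]; exact Finset.sum_nonneg fun _ _ => by positivity
  have hsplit : Ev k N (fun α => W α * f α ^ (2 * k ^ 2)) ≤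
      Ev k N (fun α => W α * (G α * f α ^ (2 * k ^ 2 - k))) +
      (k : ℝ) ^ 2 * Ev k N (fun α => W α * (S α * (f α ^ 2) ^ (k ^ 2 - 1))) := by
    rw [hW, hG, hf, hS]
    exact cond_split hk (Cd k X p a ξ) (psm k) k (k ^ 2) hk2 hX
      (fun x hx j => psm_bound k k X hX x (mem_bx.1 (Cd_sub_bx _ _ _ _ _ hx)) j)
      (by have : k + k ^ 2 = (k + 1) * k := by ring
          rw [this]; exact hN) (p ^ b) (p ^ (b + 1)) hq' hqq η
  have hI : Iab k N X p a b ξ η = Ev k N (fun α => W α * f α ^ (2 * k ^ 2)) := by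
    rw [hW, hf]; rfl
  have hK : Kab k N X p a b ξ η = Ev k N (fun α => W α * G α ^ (2 * k)) := by
    rw [hW, hG]; rfl
  rw [hI, hK]
  obtain ⟨I, hI'⟩ : ∃ I, I = Ev k N (fun α => W α * f α ^ (2 * k ^ 2)) := ⟨_, rfl⟩
  rw [← hI'] at hsplit ⊢
  have hK0 : 0 ≤ Ev k N (fun α => W α * G α ^ (2 * k)) :=
    Ev_nonneg fun α => mul_nonneg (hW0 α) (pow_nonneg (hG0 α) _)
  have hT0 : 0 ≤ (2 * (k : ℝ) ^ 2) ^ (k ^ 2) * ((p : ℝ) ^ (k ^ 2) * U) := by positivity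
  rcases le_total (I / 2) (Ev k N (fun α => W α * (G α * f α ^ (2 * k ^ 2 - k)))) with h | h
  · -- nonsingular case
    have h1 := absorb (k := k) hN1 W G (fun α => f α ^ k) hW0 hG0 (fun α => pow_nonneg (hf0 α) _) (2 * k - 1) 2
      (by norm_num) (by
        have e1 : Ev k N (fun α => W α * (f α ^ k) ^ (2 * k - 1 + 1)) = I := by
          rw [hI']
          congr 1
          funext α
          rw [← pow_mul]
          congr 2
          have : 2 * k - 1 + 1 = 2 * k := by omega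
          rw [this]; ring
        have e2 : Ev k N (fun α => W α * (G α * (f α ^ k) ^ (2 * k - 1))) =
            Ev k N (fun α => W α * (G α * f α ^ (2 * k ^ 2 - k))) := by
          congr 1
          funext α
          rw [← pow_mul]
          congr 3
          rw [Nat.mul_sub]
          congr 1
          · ring
          · ring
        rw [e1, e2]
        linarith)
    have e1 : Ev k N (fun α => W α * (f α ^ k) ^ (2 * k - 1 + 1)) = I := by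
      rw [hI']
      congr 1
      funext α
      rw [← pow_mul]
      congr 2
      have : 2 * k - 1 + 1 = 2 * k := by omega
      rw [this]; ring
    have e3 : 2 * k - 1 + 1 = 2 * k := by omega
    rw [e1, e3] at h1
    have e4 : (2 : ℝ) ^ (2 * k) = 4 ^ k := by rw [pow_mul]; norm_num
    rw [e4] at h1
    linarith
  · -- singular case
    have h2 : I / 2 ≤ (k : ℝ) ^ 2 * Ev k N (fun α => W α * (S α * (f α ^ 2) ^ (k ^ 2 - 1))) := by linarith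
    have hk21 : k ^ 2 - 1 + 1 = k ^ 2 := by omega
    have e1 : Ev k N (fun α => W α * (f α ^ 2) ^ (k ^ 2 - 1 + 1)) = I := by
      rw [hI', hk21]
      congr 1
      funext α
      rw [← pow_mul]
    have h1 := absorb (k := k) hN1 W S (fun α => f α ^ 2) hW0 hS0 (fun α => pow_nonneg (hf0 α) _) (k ^ 2 - 1)
      (2 * (k : ℝ) ^ 2) (by positivity) (by
        rw [e1]
        linarith)
    rw [e1, hk21] at h1
    have h3 : Ev k N (fun α => W α * S α ^ (k ^ 2)) ≤ (p : ℝ) ^ (k ^ 2) * U := by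
      obtain ⟨R, hR⟩ : ∃ R, R = cl (p ^ (b + 1)) (p ^ b) η := ⟨_, rfl⟩
      have hRc : (R.card : ℝ) ≤ p := by
        have := card_cl (p ^ b) p (Nat.one_le_pow _ _ hp) η
        rw [hR]
        have e : p ^ (b + 1) = p ^ b * p := pow_succ _ _
        rw [e]
        exact_mod_cast this
      have hpt : ∀ α, W α * S α ^ (k ^ 2) ≤ (R.card : ℝ) ^ (k ^ 2 - 1) *
          ∑ r ∈ R, W α * ‖Sg N (cl X (p ^ (b + 1)) r) (mom k) α‖ ^ (2 * k ^ 2) := by
        intro α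
        have h4 := pow_sum_le R (fun r => ‖Sg N (cl X (p ^ (b + 1)) r) (mom k) α‖ ^ 2)
          (fun _ => by positivity) (k ^ 2 - 1)
        rw [hk21] at h4
        have h5 : S α = ∑ r ∈ R, ‖Sg N (cl X (p ^ (b + 1)) r) (mom k) α‖ ^ 2 := by rw [hS, hR]
        rw [h5]
        refine (mul_le_mul_of_nonneg_left h4 (hW0 α)).trans (le_of_eq ?_)
        rw [← Finset.mul_sum]
        simp only [← pow_mul]
        ring
      refine (Ev_mono hpt).trans ?_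
      rw [Ev_const_mul, Ev_sum]
      have h6 : ∀ r ∈ R, Ev k N (fun α => W α * ‖Sg N (cl X (p ^ (b + 1)) r) (mom k) α‖ ^ (2 * k ^ 2)) ≤ U := by
        intro r _
        rw [hW]
        exact hU r
      have h7 := Finset.sum_le_sum h6
      rw [Finset.sum_const, nsmul_eq_mul] at h7
      calc (R.card : ℝ) ^ (k ^ 2 - 1) * ∑ r ∈ R, Ev k N (fun α => W α * ‖Sg N (cl X (p ^ (b + 1)) r) (mom k) α‖ ^ (2 * k ^ 2))
          ≤ (R.card : ℝ) ^ (k ^ 2 - 1) * ((R.card : ℝ) * U) := mul_le_mul_of_nonneg_left h7 (by positivity)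
        _ = (R.card : ℝ) ^ (k ^ 2) * U := by
            rw [← mul_assoc, ← pow_succ, hk21]
        _ ≤ (p : ℝ) ^ (k ^ 2) * U := mul_le_mul_of_nonneg_right
            (pow_le_pow_left₀ (Nat.cast_nonneg _) hRc _) hU0
    have h8 := mul_le_mul_of_nonneg_left h3 (by positivity : (0 : ℝ) ≤ (2 * (k : ℝ) ^ 2) ^ (k ^ 2))
    have h9 : 0 ≤ 4 ^ k * Ev k N (fun α => W α * G α ^ (2 * k)) := by positivity
    linarith

end Pool.Agent.helper132_ec
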