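import Pool.Agent.helper132_ec.E4

/-! The congruencing inequality. -/

namespace Pool.Agent.helper132_ec

open Finset Pool.Agent.helper132_sph Pool.Agent.helper132_poly

/-- decomposition of a periodic set of tuples into residue classes. -/
lemma decomp_tuple {k : ℕ} (N X Q : ℕ) (hQ : 1 ≤ Q) (P : (Fin k → ℤ) → Prop) [DecidablePred P]
    (hP : ∀ x : Fin k → ℤ, P x ↔ P (fun i => x i % (Q : ℤ))) (a : Fin k → ℕ) :
    Sg N ((bx k X).filter P) (psm k) a =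
      ∑ z ∈ (bx k Q).filter P, ∏ i, Sg N (cl X Q (z i)) (mom k) a := by
  classical
  have hq0 : (0 : ℤ) < Q := by exact_mod_cast hQ
  have hmod : ∀ x : Fin k → ℤ, (fun i => x i % (Q : ℤ)) ∈ bx k Q := by
    intro x
    rw [mem_bx]
    exact fun i => ⟨Int.emod_nonneg _ hq0.ne', Int.emod_lt_of_pos _ hq0⟩
  unfold Sg
  rw [← Finset.sum_fiberwise_of_maps_to (s := (bx k X).filter P)
      (t := (bx k Q).filter P) (g := fun x => fun i => x i % (Q : ℤ))]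
  · refine Finset.sum_congr rfl fun z hz => ?_
    rw [Finset.mem_filter, mem_bx] at hz
    rw [Finset.prod_univ_sum]
    have hset : ((bx k X).filter P).filter (fun x => (fun i => x i % (Q : ℤ)) = z) =
        Fintype.piFinset (fun i => cl X Q (z i)) := by
      ext x
      rw [Finset.mem_filter, Finset.mem_filter, Fintype.mem_piFinset, mem_bx]
      constructor
      · rintro ⟨⟨h1, _⟩, h3⟩ i
        exact (cl_eq_iff hQ (hz.1 i) (h1 i)).2 (congrFun h3 i)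
      · intro h
        have h1 : ∀ i, 0 ≤ x i ∧ x i < X := fun i => (mem_cl.1 (h i)).1
        have h3 : (fun i => x i % (Q : ℤ)) = z := by
          funext i
          exact (cl_eq_iff hQ (hz.1 i) (h1 i)).1 (h i)
        refine ⟨⟨h1, ?_⟩, h3⟩
        rw [hP, h3]
        exact hz.2
    rw [hset]
    refine Finset.sum_congr rfl fun x _ => ?_
    unfold psm
    rw [eg_sum]
  · intro x hx
    rw [Finset.mem_filter] at hx ⊢
    exact ⟨hmod x, (hP x).1 hx.2⟩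

/-- the residue vector. -/
def Tv (k p b : ℕ) (η : ℤ) (x : Fin k → ℤ) : Fin k → ℤ := fun j =>
  (∑ i, (x i - η) ^ ((j : ℕ) + 1)) % ((p : ℤ) ^ (b * ((j : ℕ) + 1)))

lemma Tv_mod (k p b : ℕ) (η : ℤ) (x : Fin k → ℤ) :
    Tv k p b η x = Tv k p b η (fun i => x i % ((p ^ (k * b) : ℕ) : ℤ)) := by
  funext j
  unfold Tv
  have h1 : ((p : ℤ) ^ (b * ((j : ℕ) + 1))) ∣ ((p ^ (k * b) : ℕ) : ℤ) := by
    push_cast
    refine pow_dvd_pow _ ?_
    have h2 : b * ((j : ℕ) + 1) ≤ b * k := Nat.mul_le_mul_left _ (by omega)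
    have h3 : k * b = b * k := mul_comm _ _
    omega
  have h2 : ∀ i, x i ≡ x i % ((p ^ (k * b) : ℕ) : ℤ) [ZMOD ((p : ℤ) ^ (b * ((j : ℕ) + 1)))] := by
    intro i
    have h3 : x i % ((p ^ (k * b) : ℕ) : ℤ) ≡ x i [ZMOD ((p ^ (k * b) : ℕ) : ℤ)] := Int.mod_modEq _ _
    exact (h3.symm).of_dvd h1
  have h4 : ∀ i ∈ (Finset.univ : Finset (Fin k)), (x i - η) ^ ((j : ℕ) + 1) ≡
      (x i % ((p ^ (k * b) : ℕ) : ℤ) - η) ^ ((j : ℕ) + 1) [ZMOD ((p : ℤ) ^ (b * ((j : ℕ) + 1)))] :=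
    fun i _ => ((h2 i).sub_right η).pow _
  exact Int.ModEq.sum h4

lemma Tv_eq_of {k p b : ℕ} {η : ℤ} {x y : Fin k → ℤ}
    (h : ∀ j : Fin k, ((p : ℤ) ^ (b * ((j : ℕ) + 1))) ∣
      ∑ i, (x i - η) ^ ((j : ℕ) + 1) - ∑ i, (y i - η) ^ ((j : ℕ) + 1)) : Tv k p b η x = Tv k p b η y := by
  funext j
  unfold Tv
  exact Int.ModEq.symm ((Int.modEq_iff_dvd).2 (h j))

/-- the congruencing inequality. -/
lemma congr_ineq (k N X p a b : ℕ) (hk : 2 ≤ k) (hX : 1 ≤ X) (hN : (k + 1) * k * X ^ k < N) (hp : p.Prime)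
    (hpk : k < p) (hab : a < b) (ξ η : ℤ) (V : ℝ) (hV0 : 0 ≤ V)
    (hV : ∀ ζ, Ev k N (fun α => ‖Sg N (Cd k X p b η) (psm k) α‖ ^ (2 * k) *
      ‖Sg N (cl X (p ^ (k * b)) ζ) (mom k) α‖ ^ (2 * k)) ≤ V) :
    Kab k N X p a b ξ η ≤ (k : ℝ) ^ k * (p : ℝ) ^ (a * (k * (k - 1) / 2)) * (p : ℝ) ^ (b * (k * (k - 1) / 2)) *
      (((p : ℝ) ^ (k * b - a)) ^ k * V) := by
  classical
  have hN1 : 1 ≤ N := by omega
  have hN' : (((k + 1) * k * X ^ k : ℕ) : ℤ) < N := by exact_mod_cast hN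
  have hp0 : (0 : ℤ) < p := by exact_mod_cast hp.pos
  have hkb : a + 1 ≤ k * b := by
    have : b ≤ k * b := Nat.le_mul_of_pos_left _ (by omega)
    omega
  obtain ⟨Q, hQ⟩ : ∃ Q, Q = p ^ (k * b) := ⟨_, rfl⟩
  have hQ1 : 1 ≤ Q := by rw [hQ]; exact Nat.one_le_pow _ _ hp.one_le
  obtain ⟨D, hD⟩ : ∃ D, D = Cd k X p a ξ := ⟨_, rfl⟩
  obtain ⟨C', hC'⟩ : ∃ C', C' = Cd k X p b η := ⟨_, rfl⟩
  obtain ⟨Z, hZ⟩ : ∃ Z, Z = Cd k Q p a ξ := ⟨_, rfl⟩
  obtain ⟨W, hW⟩ : ∃ W, W = Fintype.piFinset (fun _ : Fin k => C') := ⟨_, rfl⟩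
  obtain ⟨Ψ, hΨ⟩ : ∃ Ψ : (Fin k → Fin k → ℤ) → Fin k → ℤ, Ψ = fun v => ∑ i, psm k (v i) := ⟨_, rfl⟩
  obtain ⟨T, hT⟩ : ∃ T : (Fin k → ℤ) → Fin k → ℤ, T = Tv k p b η := ⟨_, rfl⟩
  obtain ⟨TT, hTT⟩ : ∃ TT, TT = Z.image T := ⟨_, rfl⟩
  obtain ⟨M, hM⟩ : ∃ M : ℕ, M = k ^ k * p ^ (a * (k * (k - 1) / 2)) * p ^ (b * (k * (k - 1) / 2)) := ⟨_, rfl⟩
  -- invariance of the predicate
  obtain ⟨P0, hP0⟩ : ∃ P0 : (Fin k → ℤ) → Prop, P0 = fun x =>
    (∀ i, ((p : ℤ) ^ a) ∣ x i - ξ) ∧ ∀ i j, i ≠ j → ¬ ((p : ℤ) ^ (a + 1)) ∣ x i - x j := ⟨_, rfl⟩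
  have hP0mod : ∀ x : Fin k → ℤ, P0 x ↔ P0 (fun i => x i % (Q : ℤ)) := by
    intro x
    have h1 : ∀ i, ((p : ℤ) ^ (a + 1)) ∣ x i - x i % (Q : ℤ) := by
      intro i
      have h2 : x i - x i % (Q : ℤ) = (Q : ℤ) * (x i / (Q : ℤ)) := by
        have := Int.emod_add_mul_ediv (x i) (Q : ℤ)
        linarith
      rw [h2]
      refine Dvd.dvd.mul_right ?_ _
      rw [hQ]
      push_cast
      exact pow_dvd_pow _ hkb
    have h1' : ∀ i, ((p : ℤ) ^ a) ∣ x i - x i % (Q : ℤ) := fun i => (pow_dvd_pow _ (by omega)).trans (h1 i)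
    rw [hP0]
    beta_reduce
    refine and_congr (forall_congr' fun i => ?_) (forall_congr' fun i => forall_congr' fun j => ?_)
    · constructor
      · intro h
        have : x i % (Q : ℤ) - ξ = (x i - ξ) - (x i - x i % (Q : ℤ)) := by ring
        rw [this]; exact dvd_sub h (h1' i)
      · intro h
        have : x i - ξ = (x i % (Q : ℤ) - ξ) + (x i - x i % (Q : ℤ)) := by ring
        rw [this]; exact dvd_add h (h1' i)
    · refine imp_congr_right fun _ => not_congr ?_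
      constructor
      · intro h
        have : x i % (Q : ℤ) - x j % (Q : ℤ) = (x i - x j) - (x i - x i % (Q : ℤ)) + (x j - x j % (Q : ℤ)) := by ring
        rw [this]; exact dvd_add (dvd_sub h (h1 i)) (h1 j)
      · intro h
        have : x i - x j = (x i % (Q : ℤ) - x j % (Q : ℤ)) + (x i - x i % (Q : ℤ)) - (x j - x j % (Q : ℤ)) := by ring
        rw [this]; exact dvd_sub (dvd_add h (h1 i)) (h1 j)
  have hTmod : ∀ x : Fin k → ℤ, T x = T (fun i => x i % (Q : ℤ)) := by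
    intro x
    rw [hT, hQ]
    exact Tv_mod k p b η x
  have hDf : ∀ Y : ℕ, Cd k Y p a ξ = (bx k Y).filter P0 := by
    intro Y
    ext x
    rw [mem_Cd, Finset.mem_filter, hP0]
  have hDt : ∀ (Y : ℕ) (t : Fin k → ℤ), (Cd k Y p a ξ).filter (fun x => T x = t) =
      (bx k Y).filter (fun x => P0 x ∧ T x = t) := by
    intro Y t
    rw [hDf, Finset.filter_filter]
  have hTD : ∀ x ∈ D, T x ∈ TT := by
    intro x hx
    rw [hTT, Finset.mem_image]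
    refine ⟨fun i => x i % (Q : ℤ), ?_, (hTmod x).symm⟩
    rw [hZ, hDf, Finset.mem_filter, mem_bx]
    have hq0 : (0 : ℤ) < Q := by exact_mod_cast hQ1
    refine ⟨fun i => ⟨Int.emod_nonneg _ hq0.ne', Int.emod_lt_of_pos _ hq0⟩, ?_⟩
    rw [← hP0mod]
    rw [hD, hDf, Finset.mem_filter] at hx
    exact hx.2
  -- counting
  have hbnd : ∀ w ∈ D ×ˢ W, ∀ j, 0 ≤ (psm k w.1 + Ψ w.2) j ∧
      (psm k w.1 + Ψ w.2) j ≤ (((k + 1) * k : ℕ) : ℤ) * (X : ℤ) ^ k := by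
    intro w hw j
    rw [Finset.mem_product] at hw
    have a1 := psm_bound k k X hX w.1 (mem_bx.1 (by
      have := hw.1
      rw [hD] at this
      exact Cd_sub_bx _ _ _ _ _ this)) j
    have h3 : ∀ i, 0 ≤ psm k (w.2 i) j ∧ psm k (w.2 i) j ≤ k * (X : ℤ) ^ k := fun i =>
      psm_bound k k X hX (w.2 i) (mem_bx.1 (by
        have := hw.2
        rw [hW, Fintype.mem_piFinset] at this
        have h4 := this i
        rw [hC'] at h4
        exact Cd_sub_bx _ _ _ _ _ h4)) j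
    rw [Pi.add_apply, hΨ]
    beta_reduce
    rw [Finset.sum_apply]
    have h5 : 0 ≤ ∑ i, psm k (w.2 i) j := Finset.sum_nonneg fun i _ => (h3 i).1
    have h6 : ∑ i, psm k (w.2 i) j ≤ k * (k * (X : ℤ) ^ k) := by
      refine (Finset.sum_le_sum fun i _ => (h3 i).2).trans (le_of_eq ?_)
      rw [Finset.sum_const, Finset.card_univ, Fintype.card_fin]
      ring
    refine ⟨by linarith [a1.1], ?_⟩
    have e : (((k + 1) * k : ℕ) : ℤ) * (X : ℤ) ^ k = k * (X : ℤ) ^ k + k * (k * (X : ℤ) ^ k) := by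
      push_cast; ring
    rw [e]
    linarith [a1.2]
  have hdiff : ∀ x ∈ D ×ˢ W, ∀ y ∈ D ×ˢ W, ∀ j, |(psm k x.1 + Ψ x.2) j - (psm k y.1 + Ψ y.2) j| < N := by
    intro x hx y hy j
    have h1 := hbnd x hx j
    have h2 := hbnd y hy j
    push_cast at h1 h2 hN'
    rw [abs_lt]
    constructor <;> linarith [h1.1, h1.2, h2.1, h2.2]
  have hSW : ∀ α : Fin k → ℕ, ‖Sg N W Ψ α‖ = ‖Sg N C' (psm k) α‖ ^ k := by
    intro α
    rw [hW, hΨ, ← Sg_pow, norm_pow]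
  have hTeq : ∀ x ∈ D ×ˢ W, ∀ y ∈ D ×ˢ W, psm k x.1 + Ψ x.2 = psm k y.1 + Ψ y.2 → T x.1 = T y.1 := by
    intro x hx y hy hxy
    rw [Finset.mem_product] at hx hy
    rw [hT]
    refine Tv_eq_of fun j => ?_
    have h1 := congrArg (fun v => tr k η v j) hxy
    beta_reduce at h1
    rw [tr_add, tr_add, Pi.add_apply, Pi.add_apply, tr_psm, tr_psm, hΨ] at h1
    beta_reduce at h1
    rw [tr_sum, tr_sum, Finset.sum_apply, Finset.sum_apply] at h1
    have h2 : ∀ v ∈ W, ((p : ℤ) ^ (b * ((j : ℕ) + 1))) ∣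
        ∑ i, tr k η (psm k (v i)) j + k * (k * (-η) ^ ((j : ℕ) + 1)) := by
      intro v hv
      rw [hW, Fintype.mem_piFinset] at hv
      have h3 : ∑ i, tr k η (psm k (v i)) j + k * (k * (-η) ^ ((j : ℕ) + 1)) =
          ∑ i, ∑ l, (v i l - η) ^ ((j : ℕ) + 1) := by
        rw [Finset.sum_congr rfl (fun i _ => tr_psm k η (v i) j), Finset.sum_sub_distrib,
          Finset.sum_const, Finset.card_univ, Fintype.card_fin, nsmul_eq_mul]
        ring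
      rw [h3]
      refine Finset.dvd_sum fun i _ => Finset.dvd_sum fun l _ => ?_
      rw [pow_mul]
      refine pow_dvd_pow_of_dvd ?_ _
      have h4 := hv i
      rw [hC', mem_Cd] at h4
      exact h4.2.1 l
    have h3 := dvd_sub (h2 y.2 hy.2) (h2 x.2 hx.2)
    have h4 : (∑ i, tr k η (psm k (y.2 i)) j + k * (k * (-η) ^ ((j : ℕ) + 1))) -
        (∑ i, tr k η (psm k (x.2 i)) j + k * (k * (-η) ^ ((j : ℕ) + 1))) =
        ∑ i, (x.1 i - η) ^ ((j : ℕ) + 1) - ∑ i, (y.1 i - η) ^ ((j : ℕ) + 1) := by linarith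
    rw [h4] at h3
    exact h3
  have hK1 : Kab k N X p a b ξ η = (((((D ×ˢ W) ×ˢ (D ×ˢ W))).filter
      (fun w => psm k w.1.1 + Ψ w.1.2 = psm k w.2.1 + Ψ w.2.2)).card : ℝ) := by
    rw [← moment_Ev N hN1 (D ×ˢ W) (fun w => psm k w.1 + Ψ w.2) hdiff]
    unfold Kab
    congr 1
    funext α
    rw [← Sg_mul, norm_mul, hSW, mul_pow, ← pow_mul, mul_comm k 2, hD, hC']
  have hK2 : (((((D ×ˢ W) ×ˢ (D ×ˢ W))).filter
      (fun w => psm k w.1.1 + Ψ w.1.2 = psm k w.2.1 + Ψ w.2.2)).card : ℝ) ≤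
      ∑ t ∈ TT, Ev k N (fun α => ‖Sg N (D.filter (fun x => T x = t)) (psm k) α‖ ^ 2 *
        ‖Sg N C' (psm k) α‖ ^ (2 * k)) := by
    have h1 : ∀ t ∈ TT, Ev k N (fun α => ‖Sg N (D.filter (fun x => T x = t)) (psm k) α‖ ^ 2 *
        ‖Sg N C' (psm k) α‖ ^ (2 * k)) = (((((D.filter (fun x => T x = t)) ×ˢ W) ×ˢ
          ((D.filter (fun x => T x = t)) ×ˢ W)).filter
          (fun w => psm k w.1.1 + Ψ w.1.2 = psm k w.2.1 + Ψ w.2.2)).card : ℝ) := by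
      intro t _
      have hsub : (D.filter (fun x => T x = t)) ×ˢ W ⊆ D ×ˢ W :=
        Finset.product_subset_product_left (Finset.filter_subset _ _)
      rw [← moment_Ev N hN1 ((D.filter (fun x => T x = t)) ×ˢ W) (fun w => psm k w.1 + Ψ w.2)
        (fun x hx y hy => hdiff x (hsub hx) y (hsub hy))]
      congr 1
      funext α
      rw [← Sg_mul, norm_mul, hSW, mul_pow, ← pow_mul, mul_comm k 2]
    rw [Finset.sum_congr rfl h1]
    have h2 : (((D ×ˢ W) ×ˢ (D ×ˢ W))).filter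
        (fun w => psm k w.1.1 + Ψ w.1.2 = psm k w.2.1 + Ψ w.2.2) ⊆
        TT.biUnion (fun t => (((D.filter (fun x => T x = t)) ×ˢ W) ×ˢ
          ((D.filter (fun x => T x = t)) ×ˢ W)).filter
          (fun w => psm k w.1.1 + Ψ w.1.2 = psm k w.2.1 + Ψ w.2.2)) := by
      intro w hw
      rw [Finset.mem_filter, Finset.mem_product] at hw
      obtain ⟨⟨h3, h4⟩, h5⟩ := hw
      have h6 := hTeq w.1 h3 w.2 h4 h5
      rw [Finset.mem_product] at h3 h4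
      rw [Finset.mem_biUnion]
      refine ⟨T w.1.1, hTD _ h3.1, ?_⟩
      rw [Finset.mem_filter, Finset.mem_product, Finset.mem_product, Finset.mem_product,
        Finset.mem_filter, Finset.mem_filter]
      exact ⟨⟨⟨⟨h3.1, rfl⟩, h3.2⟩, ⟨⟨h4.1, h6.symm⟩, h4.2⟩⟩, h5⟩
    have h3 := (Finset.card_le_card h2).trans Finset.card_biUnion_le
    exact_mod_cast h3
  -- pointwise bound
  obtain ⟨R, hR⟩ : ∃ R, R = cl Q (p ^ a) ξ := ⟨_, rfl⟩
  have hQfac : Q = p ^ a * p ^ (k * b - a) := by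
    rw [hQ, ← pow_add]; congr 1; omega
  have hRc : (R.card : ℝ) ≤ (p : ℝ) ^ (k * b - a) := by
    have := card_cl (p ^ a) (p ^ (k * b - a)) (Nat.one_le_pow _ _ hp.one_le) ξ
    rw [← hQfac, ← hR] at this
    exact_mod_cast this
  have hZc : ∀ t : Fin k → ℤ, (Z.filter (fun x => T x = t)).card ≤ M := by
    intro t
    rw [hM]
    refine arith p k a b hp hk hpk hab ξ η t (Z.filter (fun x => T x = t)) ?_ ?_ ?_ ?_
    · intro z hz
      have h1 := (Finset.mem_filter.1 hz).1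
      rw [hZ, mem_Cd] at h1
      rw [← hQ]
      exact h1.1
    · intro z hz
      have h1 := (Finset.mem_filter.1 hz).1
      rw [hZ, mem_Cd] at h1
      exact h1.2.1
    · intro z hz
      have h1 := (Finset.mem_filter.1 hz).1
      rw [hZ, mem_Cd] at h1
      exact h1.2.2
    · intro z hz j
      have h1 := congrFun (Finset.mem_filter.1 hz).2 j
      rw [hT] at h1
      unfold Tv at h1
      rw [← h1]
      exact Int.dvd_self_sub_emod
  have hpt : ∀ α : Fin k → ℕ, ∑ t ∈ TT, ‖Sg N (D.filter (fun x => T x = t)) (psm k) α‖ ^ 2 ≤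
      (M : ℝ) * ((R.card : ℝ) ^ (k - 1) * ∑ r ∈ R, ‖Sg N (cl X Q r) (mom k) α‖ ^ (2 * k)) := by
    intro α
    have h1 : ∀ t ∈ TT, ‖Sg N (D.filter (fun x => T x = t)) (psm k) α‖ ^ 2 ≤
        (M : ℝ) * ∑ z ∈ Z.filter (fun x => T x = t), ∏ i, ‖Sg N (cl X Q (z i)) (mom k) α‖ ^ 2 := by
      intro t _
      have h2 := decomp_tuple (k := k) N X Q hQ1 (fun x => P0 x ∧ T x = t) (by
        intro x
        rw [hP0mod x, hTmod x]) α
      rw [hD, hDt X t, h2, hZ, hDt Q t]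
      obtain ⟨Zt, hZt⟩ : ∃ Zt, Zt = (bx k Q).filter (fun x => P0 x ∧ T x = t) := ⟨_, rfl⟩
      have hZtc : Zt.card ≤ M := by
        rw [hZt, ← hDt Q t, ← hZ]; exact hZc t
      rw [← hZt]
      have h3 := pow_sum_le Zt (fun z => ∏ i, ‖Sg N (cl X Q (z i)) (mom k) α‖)
        (fun _ => Finset.prod_nonneg fun _ _ => norm_nonneg _) 1
      rw [pow_one] at h3
      have h4 : ‖∑ z ∈ Zt, ∏ i, Sg N (cl X Q (z i)) (mom k) α‖ ≤ ∑ z ∈ Zt, ∏ i, ‖Sg N (cl X Q (z i)) (mom k) α‖ := by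
        refine (norm_sum_le _ _).trans (Finset.sum_le_sum fun z _ => ?_)
        rw [norm_prod]
      have h5 : ∀ z ∈ Zt, (∏ i, ‖Sg N (cl X Q (z i)) (mom k) α‖) ^ (1 + 1) =
          ∏ i, ‖Sg N (cl X Q (z i)) (mom k) α‖ ^ 2 := by
        intro z _
        rw [Finset.prod_pow]
      rw [Finset.sum_congr rfl h5] at h3
      calc ‖∑ z ∈ Zt, ∏ i, Sg N (cl X Q (z i)) (mom k) α‖ ^ 2
          ≤ (∑ z ∈ Zt, ∏ i, ‖Sg N (cl X Q (z i)) (mom k) α‖) ^ (1 + 1) :=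
            pow_le_pow_left₀ (norm_nonneg _) h4 2
        _ ≤ (Zt.card : ℝ) * ∑ z ∈ Zt, ∏ i, ‖Sg N (cl X Q (z i)) (mom k) α‖ ^ 2 := h3
        _ ≤ _ := by
            refine mul_le_mul_of_nonneg_right (by exact_mod_cast hZtc) ?_
            exact Finset.sum_nonneg fun _ _ => Finset.prod_nonneg fun _ _ => by positivity
    refine (Finset.sum_le_sum h1).trans ?_
    rw [← Finset.mul_sum]
    refine mul_le_mul_of_nonneg_left ?_ (Nat.cast_nonneg _)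
    rw [Finset.sum_fiberwise_of_maps_to (s := Z) (t := TT) (g := T) (by
      intro z hz
      rw [hTT]
      exact Finset.mem_image_of_mem _ hz)]
    have h6 : Z ⊆ tup k R := by
      rw [hZ, hR]
      exact Cd_sub_tup _ _ _ _ _
    have h7 : ∑ z ∈ Z, ∏ i, ‖Sg N (cl X Q (z i)) (mom k) α‖ ^ 2 ≤
        ∑ z ∈ tup k R, ∏ i, ‖Sg N (cl X Q (z i)) (mom k) α‖ ^ 2 :=
      Finset.sum_le_sum_of_subset_of_nonneg h6 fun _ _ _ => Finset.prod_nonneg fun _ _ => by positivity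
    refine h7.trans ?_
    have h8 : ∑ z ∈ tup k R, ∏ i, ‖Sg N (cl X Q (z i)) (mom k) α‖ ^ 2 =
        (∑ r ∈ R, ‖Sg N (cl X Q r) (mom k) α‖ ^ 2) ^ k := by
      have h9 := Finset.prod_univ_sum (fun _ : Fin k => R) (fun _ (r : ℤ) => ‖Sg N (cl X Q r) (mom k) α‖ ^ 2)
      rw [Finset.prod_const, Finset.card_univ, Fintype.card_fin] at h9
      rw [h9]
      rfl
    rw [h8]
    have h10 := pow_sum_le R (fun r => ‖Sg N (cl X Q r) (mom k) α‖ ^ 2) (fun _ => by positivity) (k - 1)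
    have hk1 : k - 1 + 1 = k := by omega
    rw [hk1] at h10
    simp only [← pow_mul] at h10
    exact h10
  -- assembly
  have hMR : (M : ℝ) = (k : ℝ) ^ k * (p : ℝ) ^ (a * (k * (k - 1) / 2)) * (p : ℝ) ^ (b * (k * (k - 1) / 2)) := by
    rw [hM]; push_cast; ring
  rw [hK1]
  refine hK2.trans ?_
  rw [← Ev_sum]
  have h1 : ∀ α : Fin k → ℕ, ∑ t ∈ TT, ‖Sg N (D.filter (fun x => T x = t)) (psm k) α‖ ^ 2 *
        ‖Sg N C' (psm k) α‖ ^ (2 * k) ≤ ((M : ℝ) * (R.card : ℝ) ^ (k - 1)) *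
        ∑ r ∈ R, ‖Sg N C' (psm k) α‖ ^ (2 * k) * ‖Sg N (cl X Q r) (mom k) α‖ ^ (2 * k) := by
    intro α
    rw [← Finset.sum_mul]
    refine (mul_le_mul_of_nonneg_right (hpt α) (by positivity)).trans (le_of_eq ?_)
    rw [← Finset.mul_sum]
    ring
  refine (Ev_mono h1).trans ?_
  rw [Ev_const_mul, Ev_sum]
  have h2 : ∀ r ∈ R, Ev k N (fun α => ‖Sg N C' (psm k) α‖ ^ (2 * k) *
      ‖Sg N (cl X Q r) (mom k) α‖ ^ (2 * k)) ≤ V := by
    intro r _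
    rw [hC', hQ]
    exact hV r
  have h3 := Finset.sum_le_sum h2
  rw [Finset.sum_const, nsmul_eq_mul] at h3
  have hk1 : k - 1 + 1 = k := by omega
  calc ((M : ℝ) * (R.card : ℝ) ^ (k - 1)) * ∑ r ∈ R, Ev k N (fun α => ‖Sg N C' (psm k) α‖ ^ (2 * k) *
      ‖Sg N (cl X Q r) (mom k) α‖ ^ (2 * k))
      ≤ ((M : ℝ) * (R.card : ℝ) ^ (k - 1)) * ((R.card : ℝ) * V) :=
        mul_le_mul_of_nonneg_left h3 (mul_nonneg (Nat.cast_nonneg _) (pow_nonneg (Nat.cast_nonneg _) _))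
    _ = (M : ℝ) * ((R.card : ℝ) ^ k * V) := by
        calc ((M : ℝ) * (R.card : ℝ) ^ (k - 1)) * ((R.card : ℝ) * V) =
            (M : ℝ) * ((R.card : ℝ) ^ (k - 1 + 1) * V) := by rw [pow_succ]; ring
          _ = _ := by rw [hk1]
    _ ≤ (M : ℝ) * (((p : ℝ) ^ (k * b - a)) ^ k * V) :=
        mul_le_mul_of_nonneg_left (mul_le_mul_of_nonneg_right
          (pow_le_pow_left₀ (Nat.cast_nonneg _) hRc _) hV0) (Nat.cast_nonneg _)
    _ = _ := by rw [hMR]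

end Pool.Agent.helper132_ec
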