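import Pool.Agent.helper132_ec.E5
import Pool.Agent.helper132_quad.Q1

/-! The start of the iteration. -/

namespace Pool.Agent.helper132_ec

open Finset Pool.Agent.helper132_sph Pool.Agent.helper132_poly Pool.Agent.helper132_quad

lemma cl_one (X : ℕ) (r : ℤ) : cl X 1 r = Ico (0 : ℤ) X := by
  ext x
  rw [mem_cl, Finset.mem_Ico]
  simp

lemma Jm_Ev (k s X N : ℕ) (hX : 1 ≤ X) (hN : s * X ^ k < N) (r : ℤ) :
    Ev k N (fun a => ‖Sg N (cl X 1 r) (mom k) a‖ ^ (2 * s)) = Jm k s X := by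
  have hNp : (0 : ℝ) < (N : ℝ) ^ k := by
    have : (0 : ℝ) < N := by exact_mod_cast (by omega : 0 < N)
    positivity
  have h := Jm_eq k s X N hX hN
  unfold Ev
  rw [div_eq_iff hNp.ne', mul_comm (Jm k s X : ℝ), ← h, cl_one]
  rfl

/-- the first step. -/
lemma start_ineq (k N X p : ℕ) (hk : 2 ≤ k) (hX : 1 ≤ X) (hN : (k + 1) * k * X ^ k < N) (hp : 1 ≤ p)
    (U : ℝ) (hU0 : 0 ≤ U) (hU : ∀ η, Iab k N X p 0 1 0 η ≤ U) :
    (Jm k ((k + 1) * k) X : ℝ) ≤ 4 * ((p : ℝ) ^ (2 * k ^ 2) * U) +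
      (2 * (k : ℝ) ^ 2) ^ ((k + 1) * k) * ((p : ℝ) ^ ((k + 1) * k) * Jm k ((k + 1) * k) (X / p + 1)) := by
  classical
  have hN1 : 1 ≤ N := by omega
  obtain ⟨s, hs⟩ : ∃ s, s = (k + 1) * k := ⟨_, rfl⟩
  have hs1 : s - 1 + 1 = s := by
    have : 1 ≤ s := by rw [hs]; nlinarith
    omega
  have hks : k ≤ s := by rw [hs]; nlinarith
  have h2s : 2 * s - 2 * k = 2 * k ^ 2 := by
    have : s = k ^ 2 + k := by rw [hs]; ring
    omega
  obtain ⟨G, hG⟩ : ∃ G : (Fin k → ℕ) → ℝ, G = fun α => ‖Sg N (Cd k X p 0 0) (psm k) α‖ := ⟨_, rfl⟩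
  obtain ⟨f, hf⟩ : ∃ f : (Fin k → ℕ) → ℝ, f = fun α => ‖Sg N (cl X (p ^ 0) 0) (mom k) α‖ := ⟨_, rfl⟩
  obtain ⟨R, hR⟩ : ∃ R, R = cl (p ^ (0 + 1)) (p ^ 0) 0 := ⟨_, rfl⟩
  obtain ⟨S, hS⟩ : ∃ S : (Fin k → ℕ) → ℝ, S = fun α => ∑ r ∈ R,
    ‖Sg N (cl X (p ^ (0 + 1)) r) (mom k) α‖ ^ 2 := ⟨_, rfl⟩
  have hRc : (R.card : ℝ) ≤ p := by
    have := card_cl (p ^ 0) p (Nat.one_le_pow _ _ hp) 0
    rw [hR]
    have e : p ^ (0 + 1) = p ^ 0 * p := pow_succ _ _
    rw [e]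
    exact_mod_cast this
  have hG0 : ∀ α, 0 ≤ G α := fun α => by rw [hG]; positivity
  have hf0 : ∀ α, 0 ≤ f α := fun α => by rw [hf]; positivity
  have hS0 : ∀ α, 0 ≤ S α := fun α => by rw [hS]; exact Finset.sum_nonneg fun _ _ => by positivity
  have hunit : ∀ α : Fin k → ℕ, ‖Sg N ({()} : Finset Unit) (fun _ => (0 : Fin k → ℤ)) α‖ ^ 2 = 1 := by
    intro α
    unfold Sg
    rw [Finset.sum_singleton, eg_zero]
    simp
  have hsplit : Ev k N (fun α => f α ^ (2 * s)) ≤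
      Ev k N (fun α => G α * f α ^ (2 * s - k)) +
      (k : ℝ) ^ 2 * Ev k N (fun α => S α * (f α ^ 2) ^ (s - 1)) := by
    have h := cond_split (N := N) (X := X) hk ({()} : Finset Unit) (fun _ => (0 : Fin k → ℤ)) 0 s hks hX
      (by intro i _ j; simp) (by rw [zero_add, hs]; exact hN) (p ^ 0) (p ^ (0 + 1)) (Nat.one_le_pow _ _ hp)
      (pow_dvd_pow _ (by omega)) 0
    simp only [hunit, one_mul] at h
    rw [hG, hf, hS, hR]
    exact h
  have hJ : (Jm k s X : ℝ) = Ev k N (fun α => f α ^ (2 * s)) := by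
    rw [hf, pow_zero]
    exact (Jm_Ev k s X N hX (by rw [hs]; exact hN) 0).symm
  rw [← hs, hJ]
  obtain ⟨I, hI'⟩ : ∃ I, I = Ev k N (fun α => f α ^ (2 * s)) := ⟨_, rfl⟩
  rw [← hI'] at hsplit ⊢
  have hA0 : 0 ≤ 4 * ((p : ℝ) ^ (2 * k ^ 2) * U) := by positivity
  have hB0 : 0 ≤ (2 * (k : ℝ) ^ 2) ^ s * ((p : ℝ) ^ s * (Jm k s (X / p + 1) : ℝ)) := by positivity
  rcases le_total (I / 2) (Ev k N (fun α => G α * f α ^ (2 * s - k))) with h | h
  · have h1 := absorb (k := k) hN1 (fun α => f α ^ (2 * s - 2 * k)) G (fun α => f α ^ k)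
      (fun α => pow_nonneg (hf0 α) _) hG0 (fun α => pow_nonneg (hf0 α) _) 1 2
      (by norm_num) (by
        have e1 : Ev k N (fun α => f α ^ (2 * s - 2 * k) * (f α ^ k) ^ (1 + 1)) = I := by
          rw [hI']
          congr 1
          funext α
          rw [← pow_mul, ← pow_add]
          congr 1
          omega
        have e2 : Ev k N (fun α => f α ^ (2 * s - 2 * k) * (G α * (f α ^ k) ^ 1)) =
            Ev k N (fun α => G α * f α ^ (2 * s - k)) := by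
          congr 1
          funext α
          have : 2 * s - k = (2 * s - 2 * k) + k := by omega
          rw [this, pow_add, pow_one]
          ring
        rw [e1, e2]
        linarith)
    have e1 : Ev k N (fun α => f α ^ (2 * s - 2 * k) * (f α ^ k) ^ (1 + 1)) = I := by
      rw [hI']
      congr 1
      funext α
      rw [← pow_mul, ← pow_add]
      congr 1
      omega
    rw [e1, h2s] at h1
    have h3 : Ev k N (fun α => f α ^ (2 * k ^ 2) * G α ^ (1 + 1)) ≤ (p : ℝ) ^ (2 * k ^ 2) * U := by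
      have hk22 : 2 * k ^ 2 - 1 + 1 = 2 * k ^ 2 := by
        have : 1 ≤ k ^ 2 := Nat.one_le_pow _ _ (by omega)
        omega
      have hpt : ∀ α, f α ^ (2 * k ^ 2) * G α ^ (1 + 1) ≤ (R.card : ℝ) ^ (2 * k ^ 2 - 1) *
          ∑ r ∈ R, G α ^ 2 * ‖Sg N (cl X (p ^ (0 + 1)) r) (mom k) α‖ ^ (2 * k ^ 2) := by
        intro α
        have h4 := pow_sum_le R (fun r => ‖Sg N (cl X (p ^ (0 + 1)) r) (mom k) α‖)
          (fun _ => norm_nonneg _) (2 * k ^ 2 - 1)
        rw [hk22] at h4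
        have h5 : f α ≤ ∑ r ∈ R, ‖Sg N (cl X (p ^ (0 + 1)) r) (mom k) α‖ := by
          rw [hf, hR]
          beta_reduce
          have h6 : Sg N (cl X (p ^ 0) 0) (mom k) α =
              ∑ r ∈ cl (p ^ (0 + 1)) (p ^ 0) 0, Sg N (cl X (p ^ (0 + 1)) r) (mom k) α := by
            unfold Sg
            exact sum_cl (Nat.one_le_pow _ _ hp) (pow_dvd_pow _ (by omega)) 0 _
          rw [h6]
          exact norm_sum_le _ _
        have h7 := (pow_le_pow_left₀ (hf0 α) h5 (2 * k ^ 2)).trans h4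
        refine (mul_le_mul_of_nonneg_right h7 (pow_nonneg (hG0 α) _)).trans (le_of_eq ?_)
        rw [← Finset.mul_sum]
        ring
      refine (Ev_mono hpt).trans ?_
      rw [Ev_const_mul, Ev_sum]
      have h6 : ∀ r ∈ R, Ev k N (fun α => G α ^ 2 * ‖Sg N (cl X (p ^ (0 + 1)) r) (mom k) α‖ ^ (2 * k ^ 2)) ≤ U := by
        intro r _
        rw [hG]
        exact hU r
      have h7 := Finset.sum_le_sum h6
      rw [Finset.sum_const, nsmul_eq_mul] at h7
      calc (R.card : ℝ) ^ (2 * k ^ 2 - 1) * ∑ r ∈ R, Ev k N (fun α => G α ^ 2 *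
            ‖Sg N (cl X (p ^ (0 + 1)) r) (mom k) α‖ ^ (2 * k ^ 2))
          ≤ (R.card : ℝ) ^ (2 * k ^ 2 - 1) * ((R.card : ℝ) * U) :=
            mul_le_mul_of_nonneg_left h7 (pow_nonneg (Nat.cast_nonneg _) _)
        _ = (R.card : ℝ) ^ (2 * k ^ 2) * U := by
            rw [← mul_assoc, ← pow_succ, hk22]
        _ ≤ (p : ℝ) ^ (2 * k ^ 2) * U := mul_le_mul_of_nonneg_right
            (pow_le_pow_left₀ (Nat.cast_nonneg _) hRc _) hU0
    have e4 : (2 : ℝ) ^ (1 + 1) = 4 := by norm_num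
    rw [e4] at h1
    linarith
  · have h1 := absorb (k := k) hN1 (fun _ => 1) S (fun α => f α ^ 2)
      (fun _ => zero_le_one) hS0 (fun α => pow_nonneg (hf0 α) _) (s - 1) (2 * (k : ℝ) ^ 2)
      (by positivity) (by
        have e1 : Ev k N (fun α => 1 * (f α ^ 2) ^ (s - 1 + 1)) = I := by
          rw [hI', hs1]
          congr 1
          funext α
          rw [← pow_mul, one_mul]
        have e2 : Ev k N (fun α => 1 * (S α * (f α ^ 2) ^ (s - 1))) =
            Ev k N (fun α => S α * (f α ^ 2) ^ (s - 1)) := by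
          congr 1
          funext α
          rw [one_mul]
        rw [e1, e2]
        linarith)
    have e1 : Ev k N (fun α => 1 * (f α ^ 2) ^ (s - 1 + 1)) = I := by
      rw [hI', hs1]
      congr 1
      funext α
      rw [← pow_mul, one_mul]
    rw [e1, hs1] at h1
    have h3 : Ev k N (fun α => 1 * S α ^ s) ≤ (p : ℝ) ^ s * (Jm k s (X / p + 1) : ℝ) := by
      have hpt : ∀ α, 1 * S α ^ s ≤ (R.card : ℝ) ^ (s - 1) *
          ∑ r ∈ R, ‖Sg N (cl X (p ^ (0 + 1)) r) (mom k) α‖ ^ (2 * s) := by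
        intro α
        have h4 := pow_sum_le R (fun r => ‖Sg N (cl X (p ^ (0 + 1)) r) (mom k) α‖ ^ 2)
          (fun _ => by positivity) (s - 1)
        rw [hs1] at h4
        have h5 : S α = ∑ r ∈ R, ‖Sg N (cl X (p ^ (0 + 1)) r) (mom k) α‖ ^ 2 := by rw [hS]
        rw [h5, one_mul]
        simp only [← pow_mul] at h4 ⊢
        exact h4
      refine (Ev_mono hpt).trans ?_
      rw [Ev_const_mul, Ev_sum]
      have h6 : ∀ r ∈ R, Ev k N (fun α => ‖Sg N (cl X (p ^ (0 + 1)) r) (mom k) α‖ ^ (2 * s)) ≤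
          (Jm k s (X / p + 1) : ℝ) := by
        intro r _
        have h7 := Ev_cl_le k s X N (p ^ (0 + 1)) hX (by rw [hs]; exact hN) (Nat.one_le_pow _ _ hp) r
        rw [zero_add, pow_one] at h7 ⊢
        exact h7
      have h7 := Finset.sum_le_sum h6
      rw [Finset.sum_const, nsmul_eq_mul] at h7
      calc (R.card : ℝ) ^ (s - 1) * ∑ r ∈ R, Ev k N (fun α => ‖Sg N (cl X (p ^ (0 + 1)) r) (mom k) α‖ ^ (2 * s))
          ≤ (R.card : ℝ) ^ (s - 1) * ((R.card : ℝ) * (Jm k s (X / p + 1) : ℝ)) :=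
            mul_le_mul_of_nonneg_left h7 (pow_nonneg (Nat.cast_nonneg _) _)
        _ = (R.card : ℝ) ^ s * (Jm k s (X / p + 1) : ℝ) := by
            rw [← mul_assoc, ← pow_succ, hs1]
        _ ≤ (p : ℝ) ^ s * (Jm k s (X / p + 1) : ℝ) := mul_le_mul_of_nonneg_right
            (pow_le_pow_left₀ (Nat.cast_nonneg _) hRc _) (Nat.cast_nonneg _)
    have h8 := mul_le_mul_of_nonneg_left h3 (by positivity : (0 : ℝ) ≤ (2 * (k : ℝ) ^ 2) ^ s)
    linarith

end Pool.Agent.helper132_ec
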