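import Pool.Agent.helper132_ec.E6

/-! The downward induction. -/

namespace Pool.Agent.helper132_ec

open Finset Pool.Agent.helper132_sph Pool.Agent.helper132_poly Pool.Agent.helper132_quad

/-- main exponent. -/
noncomputable def me (k a b : ℕ) : ℝ :=
  -2 * (k : ℝ) * a - 2 * (k : ℝ) ^ 2 * b + (k : ℝ) * (k + 1) / 2 * (a + b)

/-- exponent of the mean value. -/
noncomputable def lam (k : ℕ) (η : ℝ) : ℝ := 2 * (((k + 1) * k : ℕ) : ℝ) - (k : ℝ) * (k + 1) / 2 + η

lemma lam_eq (k : ℕ) (η : ℝ) : lam k η = 3 / 2 * (k : ℝ) * (k + 1) + η := by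
  unfold lam
  push_cast
  ring

lemma J_scaled (k p X b : ℕ) (hp : 1 ≤ p) (hX : 1 ≤ X) (hb : p ^ b ≤ X) (η CJ : ℝ) (hη : 0 ≤ η)
    (hCJ : 1 ≤ CJ) (hJ : MVT k ((k + 1) * k) η CJ) :
    (Jm k ((k + 1) * k) (X / p ^ b + 1) : ℝ) ≤
      (CJ * 2 ^ lam k η) * ((X : ℝ) ^ lam k η * (p : ℝ) ^ (-(lam k η * b))) := by
  have hp0 : (0 : ℝ) < p := by exact_mod_cast hp
  have hX0 : (0 : ℝ) < X := by exact_mod_cast hX
  have hlam : 0 ≤ lam k η := by
    rw [lam_eq]
    positivity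
  have hpb : (0 : ℝ) < (p : ℝ) ^ b := by positivity
  have h1 := hJ (X / p ^ b + 1) (Nat.le_add_left 1 _)
  have h2 : ((X / p ^ b + 1 : ℕ) : ℝ) ≤ 2 * X / (p : ℝ) ^ b := by
    have h3 : ((X / p ^ b : ℕ) : ℝ) ≤ (X : ℝ) / ((p ^ b : ℕ) : ℝ) := Nat.cast_div_le
    have h4 : (1 : ℝ) ≤ (X : ℝ) / (p : ℝ) ^ b := by
      rw [le_div_iff₀ hpb, one_mul]
      exact_mod_cast hb
    push_cast at h3 ⊢
    calc ((X / p ^ b : ℕ) : ℝ) + 1 ≤ (X : ℝ) / (p : ℝ) ^ b + (X : ℝ) / (p : ℝ) ^ b := add_le_add h3 h4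
      _ = 2 * X / (p : ℝ) ^ b := by ring
  have h5 : ((X / p ^ b + 1 : ℕ) : ℝ) ^ lam k η ≤ (2 * X / (p : ℝ) ^ b) ^ lam k η :=
    Real.rpow_le_rpow (Nat.cast_nonneg _) h2 hlam
  have h6 : (2 * (X : ℝ) / (p : ℝ) ^ b) ^ lam k η =
      2 ^ lam k η * ((X : ℝ) ^ lam k η * (p : ℝ) ^ (-(lam k η * b))) := by
    rw [Real.div_rpow (by positivity) (by positivity), Real.mul_rpow (by norm_num) hX0.le,
      Real.rpow_neg hp0.le, mul_comm (lam k η) (b : ℝ), Real.rpow_natCast_mul hp0.le]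
    rw [div_eq_mul_inv, mul_assoc]
  rw [h6] at h5
  calc (Jm k ((k + 1) * k) (X / p ^ b + 1) : ℝ) ≤ CJ * ((X / p ^ b + 1 : ℕ) : ℝ) ^ lam k η := h1
    _ ≤ CJ * (2 ^ lam k η * ((X : ℝ) ^ lam k η * (p : ℝ) ^ (-(lam k η * b)))) :=
        mul_le_mul_of_nonneg_left h5 (by linarith)
    _ = _ := by ring

lemma exp_step (k a b : ℕ) (hk : 2 ≤ k) (hab : a < b) (η G1 : ℝ) :
    (((a * (k * (k - 1) / 2) : ℕ) : ℝ) + ((b * (k * (k - 1) / 2) : ℕ) : ℝ)) +
      ((((k * b - a) * k : ℕ) : ℝ) + (me k b (k * b) - G1 - lam k η * b * (k - 1)) / k) =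
      me k a b - G1 / k - (1 - 1 / k) * η * b := by
  have hk0 : (k : ℝ) ≠ 0 := by
    have : (0 : ℝ) < k := by exact_mod_cast (by omega : 0 < k)
    exact this.ne'
  have hhalf : (((k * (k - 1) / 2 : ℕ)) : ℝ) = (k : ℝ) * (k - 1) / 2 := by
    have h1 : 2 ∣ k * (k - 1) := (Nat.even_mul_pred_self k).two_dvd
    rw [Nat.cast_div h1 (by norm_num)]
    push_cast [Nat.cast_sub (show 1 ≤ k by omega)]
    ring
  have hle : a ≤ k * b := by
    have : b ≤ k * b := Nat.le_mul_of_pos_left _ (by omega)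
    omega
  rw [Nat.cast_mul a, Nat.cast_mul b, Nat.cast_mul (k * b - a), hhalf, Nat.cast_sub hle, lam_eq]
  unfold me
  push_cast
  field_simp
  ring

theorem claim (k B p X N : ℕ) (hk : 2 ≤ k) (hX : 1 ≤ X) (hN : (k + 1) * k * X ^ k < N)
    (hp : p.Prime) (hpk : k < p) (hpX : p ^ (k * B) ≤ X) (η CJ : ℝ) (hη0 : 0 ≤ η) (hCJ : 1 ≤ CJ)
    (hJ : MVT k ((k + 1) * k) η CJ) (g : ℕ → ℝ) (hg0 : ∀ b, 0 ≤ g b) (hgB : ∀ b, B ≤ b → g b = 0)
    (hstep : ∀ b, 1 ≤ b → b < B → g b ≤ g (b + 1) + 1 / 2)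
    (htr : ∀ b, 1 ≤ b → g b ≤ g (k * b) / k + (1 - 1 / k) * η * b)
    (hpbig : 2 * (2 * (k : ℝ) ^ 2) ^ (k ^ 2) ≤ (p : ℝ) ^ (1 / 2 : ℝ))
    (A D c1 : ℝ) (hD : D = CJ * 2 ^ lam k η) (hc1 : c1 = 2 * (4 * (k : ℝ)) ^ k) (hA : A = c1 ^ 2 * D) :
    ∀ n b : ℕ, 1 ≤ b → b ≤ k * B → k * B ≤ b + n → ∀ a, a < b → ∀ ξ η' : ℤ,
      Iab k N X p a b ξ η' ≤ A * ((X : ℝ) ^ lam k η * (p : ℝ) ^ (me k a b - g b)) := by
  have hp1 : 1 ≤ p := hp.one_le
  have hp0 : (0 : ℝ) < p := by exact_mod_cast hp.pos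
  have hp1R : (1 : ℝ) ≤ p := by exact_mod_cast hp1
  have hX0 : (0 : ℝ) < X := by exact_mod_cast hX
  have hkR : (2 : ℝ) ≤ k := by exact_mod_cast hk
  have hk0 : (0 : ℝ) < k := by linarith
  have hlam : 0 ≤ lam k η := by
    rw [lam_eq]
    positivity
  have h2lam : (1 : ℝ) ≤ 2 ^ lam k η := Real.one_le_rpow (by norm_num) hlam
  have hD1 : 1 ≤ D := by
    rw [hD]
    calc (1 : ℝ) = 1 * 1 := by ring
      _ ≤ CJ * 2 ^ lam k η := mul_le_mul hCJ h2lam zero_le_one (by linarith)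
  have hD0 : 0 < D := by linarith
  have hc11 : 1 ≤ c1 := by
    rw [hc1]
    have : (1 : ℝ) ≤ (4 * (k : ℝ)) ^ k := one_le_pow₀ (by linarith)
    linarith
  have hc10 : 0 < c1 := by linarith
  have hAD : D ≤ A := by
    rw [hA]
    exact le_mul_of_one_le_left hD0.le (one_le_pow₀ hc11)
  have hA0 : 0 < A := by linarith
  obtain ⟨Y, hY⟩ : ∃ Y, Y = (X : ℝ) ^ lam k η := ⟨_, rfl⟩
  have hY0 : 0 < Y := by rw [hY]; positivity
  rw [← hY]
  have hJb : ∀ b, b ≤ k * B → (Jm k ((k + 1) * k) (X / p ^ b + 1) : ℝ) ≤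
      D * (Y * (p : ℝ) ^ (-(lam k η * b))) := by
    intro b hb
    rw [hD, hY]
    exact J_scaled k p X b hp1 hX ((Nat.pow_le_pow_right hp1 hb).trans hpX) η CJ hη0 hCJ hJ
  intro n
  induction n with
  | zero =>
    intro b hb1 hbk hbn a hab ξ η'
    have hBb : B ≤ b := by
      have : B ≤ k * B := Nat.le_mul_of_pos_left _ (by omega)
      omega
    rw [hgB b hBb, sub_zero]
    refine le_of_pow_le_pow_left₀ (n := k + 1) (by omega) (by positivity) ?_
    refine (trivial_bound k X N p a b hX hN hp1 ξ η').trans ?_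
    have h1 := hJb a (by omega)
    have h2 := hJb b hbk
    calc (Jm k ((k + 1) * k) (X / p ^ a + 1) : ℝ) * (Jm k ((k + 1) * k) (X / p ^ b + 1) : ℝ) ^ k
        ≤ (D * (Y * (p : ℝ) ^ (-(lam k η * a)))) * (D * (Y * (p : ℝ) ^ (-(lam k η * b)))) ^ k := by
          refine mul_le_mul h1 (pow_le_pow_left₀ (Nat.cast_nonneg _) h2 _) (by positivity) (by positivity)
      _ = (D * Y) ^ (k + 1) * ((p : ℝ) ^ (-(lam k η * a)) * ((p : ℝ) ^ (-(lam k η * b))) ^ k) := by ring
      _ ≤ (A * Y) ^ (k + 1) * ((p : ℝ) ^ me k a b) ^ (k + 1) := by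
          refine mul_le_mul ?_ ?_ (by positivity) (by positivity)
          · exact pow_le_pow_left₀ (by positivity) (mul_le_mul_of_nonneg_right hAD hY0.le) _
          · rw [← Real.rpow_mul_natCast hp0.le, ← Real.rpow_mul_natCast hp0.le, ← Real.rpow_add hp0]
            refine Real.rpow_le_rpow_of_exponent_le hp1R ?_
            have e : me k a b * ((k + 1 : ℕ) : ℝ) - (-(lam k η * a) + -(lam k η * b) * k) =
                (k : ℝ) * (k + 1) / 2 * (k * a + b) + η * (a + k * b) := by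
              rw [lam_eq]
              unfold me
              push_cast
              ring
            have e2 : 0 ≤ (k : ℝ) * (k + 1) / 2 * (k * a + b) + η * (a + k * b) := by positivity
            linarith
      _ = (A * (Y * (p : ℝ) ^ me k a b)) ^ (k + 1) := by ring
  | succ n ih =>
    intro b hb1 hbk hbn a hab ξ η'
    rcases le_or_gt B b with hBb | hBb
    · rw [hgB b hBb, sub_zero]
      refine le_of_pow_le_pow_left₀ (n := k + 1) (by omega) (by positivity) ?_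
      refine (trivial_bound k X N p a b hX hN hp1 ξ η').trans ?_
      have h1 := hJb a (by omega)
      have h2 := hJb b hbk
      calc (Jm k ((k + 1) * k) (X / p ^ a + 1) : ℝ) * (Jm k ((k + 1) * k) (X / p ^ b + 1) : ℝ) ^ k
          ≤ (D * (Y * (p : ℝ) ^ (-(lam k η * a)))) * (D * (Y * (p : ℝ) ^ (-(lam k η * b)))) ^ k := by
            refine mul_le_mul h1 (pow_le_pow_left₀ (Nat.cast_nonneg _) h2 _) (by positivity) (by positivity)
        _ = (D * Y) ^ (k + 1) * ((p : ℝ) ^ (-(lam k η * a)) * ((p : ℝ) ^ (-(lam k η * b))) ^ k) := by ring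
        _ ≤ (A * Y) ^ (k + 1) * ((p : ℝ) ^ me k a b) ^ (k + 1) := by
            refine mul_le_mul ?_ ?_ (by positivity) (by positivity)
            · exact pow_le_pow_left₀ (by positivity) (mul_le_mul_of_nonneg_right hAD hY0.le) _
            · rw [← Real.rpow_mul_natCast hp0.le, ← Real.rpow_mul_natCast hp0.le, ← Real.rpow_add hp0]
              refine Real.rpow_le_rpow_of_exponent_le hp1R ?_
              have e : me k a b * ((k + 1 : ℕ) : ℝ) - (-(lam k η * a) + -(lam k η * b) * k) =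
                  (k : ℝ) * (k + 1) / 2 * (k * a + b) + η * (a + k * b) := by
                rw [lam_eq]
                unfold me
                push_cast
                ring
              have e2 : 0 ≤ (k : ℝ) * (k + 1) / 2 * (k * a + b) + η * (a + k * b) := by positivity
              linarith
        _ = (A * (Y * (p : ℝ) ^ me k a b)) ^ (k + 1) := by ring
    · -- the inductive case
      have hkb : k * b ≤ k * B := Nat.mul_le_mul_left _ hBb.le
      have hbkb : b < k * b := by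
        have : 2 * b ≤ k * b := Nat.mul_le_mul_right _ hk
        omega
      have hB1 : B ≤ k * B := Nat.le_mul_of_pos_left _ (by omega)
      have ih1 := ih (b + 1) (by omega) (by omega) (by omega) a (by omega) ξ
      have ih2 := ih (k * b) (by omega) hkb (by omega) b hbkb η'
      -- first part
      obtain ⟨e1, he1⟩ : ∃ e1 : ℝ, e1 = (me k b (k * b) - g (k * b) - lam k η * b * (k - 1)) / k := ⟨_, rfl⟩
      obtain ⟨V, hV⟩ : ∃ V, V = c1 * (D * (Y * (p : ℝ) ^ e1)) := ⟨_, rfl⟩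
      have hV0 : 0 ≤ V := by rw [hV]; positivity
      have hVb : ∀ ζ, Ev k N (fun α => ‖Sg N (Cd k X p b η') (psm k) α‖ ^ (2 * k) *
          ‖Sg N (cl X (p ^ (k * b)) ζ) (mom k) α‖ ^ (2 * k)) ≤ V := by
        intro ζ
        refine le_of_pow_le_pow_left₀ (n := k) (by omega) hV0 ?_
        refine (holder_step k X N p b (by omega) hX hN hp1 η' ζ).trans ?_
        have h1 := ih2 ζ
        have h2 := hJb b hbk
        have hk1 : ((k - 1 : ℕ) : ℝ) = (k : ℝ) - 1 := by
          push_cast [Nat.cast_sub (show 1 ≤ k by omega)]; ring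
        calc Iab k N X p b (k * b) η' ζ * (Jm k ((k + 1) * k) (X / p ^ b + 1) : ℝ) ^ (k - 1)
            ≤ (A * (Y * (p : ℝ) ^ (me k b (k * b) - g (k * b)))) *
              (D * (Y * (p : ℝ) ^ (-(lam k η * b)))) ^ (k - 1) := by
              refine mul_le_mul h1 (pow_le_pow_left₀ (Nat.cast_nonneg _) h2 _) (by positivity) (by positivity)
          _ = (c1 ^ 2 * (D * Y) ^ (k - 1 + 1)) * ((p : ℝ) ^ (me k b (k * b) - g (k * b)) *
              ((p : ℝ) ^ (-(lam k η * b))) ^ (k - 1)) := by rw [hA]; ring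
          _ ≤ (c1 ^ k * (D * Y) ^ k) * ((p : ℝ) ^ e1) ^ k := by
              have e3 : k - 1 + 1 = k := by omega
              rw [e3]
              refine mul_le_mul ?_ (le_of_eq ?_) (by positivity) (by positivity)
              · exact mul_le_mul_of_nonneg_right (pow_le_pow_right₀ hc11 hk) (by positivity)
              · rw [← Real.rpow_mul_natCast hp0.le, ← Real.rpow_mul_natCast hp0.le, ← Real.rpow_add hp0]
                congr 1
                rw [he1, hk1]
                field_simp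
                ring
          _ = V ^ k := by rw [hV]; ring
      have hK := congr_ineq k N X p a b hk hX hN hp hpk hab ξ η' V hV0 hVb
      -- second part
      obtain ⟨U, hU⟩ : ∃ U, U = A * (Y * (p : ℝ) ^ (me k a (b + 1) - g (b + 1))) := ⟨_, rfl⟩
      have hU0 : 0 ≤ U := by rw [hU]; positivity
      have hC := cond_ineq k N X p a b hk hX hN hp1 ξ η' U hU0 (by rw [hU]; exact ih1)
      refine hC.trans ?_
      have hgoal : A * (Y * (p : ℝ) ^ (me k a b - g b)) =
          (A / 2) * (Y * (p : ℝ) ^ (me k a b - g b)) + (A / 2) * (Y * (p : ℝ) ^ (me k a b - g b)) := by ring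
      rw [hgoal]
      refine add_le_add ?_ ?_
      · have e2 := exp_step k a b hk hab η (g (k * b))
        rw [← he1] at e2
        have e3 : (p : ℝ) ^ (a * (k * (k - 1) / 2)) * (p : ℝ) ^ (b * (k * (k - 1) / 2)) *
            (((p : ℝ) ^ (k * b - a)) ^ k * (p : ℝ) ^ e1) ≤ (p : ℝ) ^ (me k a b - g b) := by
          rw [← pow_mul, ← Real.rpow_natCast, ← Real.rpow_natCast, ← Real.rpow_natCast, ← Real.rpow_add hp0,
            ← Real.rpow_add hp0, ← Real.rpow_add hp0]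
          refine Real.rpow_le_rpow_of_exponent_le hp1R ?_
          rw [e2]
          have := htr b hb1
          linarith
        calc 4 ^ k * Kab k N X p a b ξ η' ≤ 4 ^ k * ((k : ℝ) ^ k * (p : ℝ) ^ (a * (k * (k - 1) / 2)) *
              (p : ℝ) ^ (b * (k * (k - 1) / 2)) * (((p : ℝ) ^ (k * b - a)) ^ k * V)) :=
              mul_le_mul_of_nonneg_left hK (by positivity)
          _ = (4 ^ k * (k : ℝ) ^ k * (c1 * D)) * (Y * ((p : ℝ) ^ (a * (k * (k - 1) / 2)) *
              (p : ℝ) ^ (b * (k * (k - 1) / 2)) * (((p : ℝ) ^ (k * b - a)) ^ k * (p : ℝ) ^ e1))) := by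
              rw [hV]; ring
          _ ≤ (4 ^ k * (k : ℝ) ^ k * (c1 * D)) * (Y * (p : ℝ) ^ (me k a b - g b)) := by
              refine mul_le_mul_of_nonneg_left (mul_le_mul_of_nonneg_left e3 hY0.le) (by positivity)
          _ = _ := by
              rw [hA, hc1, mul_pow]
              ring
      · have e4 : (p : ℝ) ^ (k ^ 2) * (p : ℝ) ^ (me k a (b + 1) - g (b + 1)) ≤
            (p : ℝ) ^ (me k a b - g b) * (p : ℝ) ^ (-(1 / 2) : ℝ) := by
          rw [← Real.rpow_natCast, ← Real.rpow_add hp0, ← Real.rpow_add hp0]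
          refine Real.rpow_le_rpow_of_exponent_le hp1R ?_
          have h1 := hstep b hb1 hBb
          have h2 : me k a (b + 1) = me k a b - 2 * (k : ℝ) ^ 2 + (k : ℝ) * (k + 1) / 2 := by
            unfold me
            push_cast
            ring
          rw [h2]
          push_cast
          nlinarith
        have e5 : (p : ℝ) ^ (1 / 2 : ℝ) * (p : ℝ) ^ (-(1 / 2) : ℝ) = 1 := by
          rw [← Real.rpow_add hp0]; norm_num
        have hph : 0 < (p : ℝ) ^ (-(1 / 2) : ℝ) := by positivity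
        have e6 : (2 * (k : ℝ) ^ 2) ^ (k ^ 2) * (p : ℝ) ^ (-(1 / 2) : ℝ) ≤ 1 / 2 := by
          have := mul_le_mul_of_nonneg_right hpbig hph.le
          rw [e5] at this
          linarith
        calc (2 * (k : ℝ) ^ 2) ^ (k ^ 2) * ((p : ℝ) ^ (k ^ 2) * U)
            = (2 * (k : ℝ) ^ 2) ^ (k ^ 2) * (A * Y) * ((p : ℝ) ^ (k ^ 2) *
              (p : ℝ) ^ (me k a (b + 1) - g (b + 1))) := by rw [hU]; ring
          _ ≤ (2 * (k : ℝ) ^ 2) ^ (k ^ 2) * (A * Y) * ((p : ℝ) ^ (me k a b - g b) * (p : ℝ) ^ (-(1 / 2) : ℝ)) :=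
              mul_le_mul_of_nonneg_left e4 (by positivity)
          _ = ((2 * (k : ℝ) ^ 2) ^ (k ^ 2) * (p : ℝ) ^ (-(1 / 2) : ℝ)) * (A * (Y * (p : ℝ) ^ (me k a b - g b))) := by
              ring
          _ ≤ (1 / 2) * (A * (Y * (p : ℝ) ^ (me k a b - g b))) :=
              mul_le_mul_of_nonneg_right e6 (by positivity)
          _ = _ := by ring

end Pool.Agent.helper132_ec
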