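import Pool.Agent.helper132_ec.E7
import Pool.Agent.helper132_sph.LB4

/-! The mean value theorem by efficient congruencing. -/

namespace Pool.Agent.helper132_ec

open Finset Pool.Agent.helper132_sph Pool.Agent.helper132_poly Pool.Agent.helper132_quad

/-- the gain. -/
noncomputable def gg (c : ℝ) (B b : ℕ) : ℝ := max 0 (c * b * (Real.log B - Real.log b))

lemma gg_nonneg (c : ℝ) (B b : ℕ) : 0 ≤ gg c B b := le_max_left _ _

lemma gg_zero (c : ℝ) (hc : 0 ≤ c) (B b : ℕ) (hB : 1 ≤ B) (h : B ≤ b) : gg c B b = 0 := by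
  unfold gg
  refine max_eq_left ?_
  have hB0 : (0 : ℝ) < B := by exact_mod_cast hB
  have h1 : Real.log B ≤ Real.log b := Real.log_le_log hB0 (by exact_mod_cast h)
  exact mul_nonpos_of_nonneg_of_nonpos (by positivity) (by linarith)

lemma gg_step (c : ℝ) (hc : 0 ≤ c) (hc2 : c ≤ 1 / 2) (B b : ℕ) (hb : 1 ≤ b) (h : b < B) :
    gg c B b ≤ gg c B (b + 1) + 1 / 2 := by
  have hb0 : (0 : ℝ) < b := by exact_mod_cast hb
  have hb1 : (0 : ℝ) < (b : ℝ) + 1 := by linarith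
  have h0 := gg_nonneg c B (b + 1)
  have h1 : c * ((b + 1 : ℕ) : ℝ) * (Real.log B - Real.log ((b + 1 : ℕ) : ℝ)) ≤ gg c B (b + 1) := le_max_right _ _
  have h2 : Real.log ((b + 1 : ℕ) : ℝ) ≤ Real.log B :=
    Real.log_le_log (by positivity) (by exact_mod_cast h)
  have h3 : (b : ℝ) * (Real.log ((b : ℝ) + 1) - Real.log b) ≤ 1 := by
    rw [← Real.log_div hb1.ne' hb0.ne']
    have h4 : Real.log (((b : ℝ) + 1) / b) ≤ ((b : ℝ) + 1) / b - 1 := Real.log_le_sub_one_of_pos (by positivity)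
    have h5 : ((b : ℝ) + 1) / b - 1 = 1 / b := by field_simp; ring
    rw [h5] at h4
    calc (b : ℝ) * Real.log (((b : ℝ) + 1) / b) ≤ b * (1 / b) := mul_le_mul_of_nonneg_left h4 hb0.le
      _ = 1 := by field_simp
  unfold gg at h0 h1 ⊢
  refine max_le (by linarith) ?_
  push_cast at h1 h2 ⊢
  have h6 : c * b * (Real.log B - Real.log b) ≤ c * (b + 1) * (Real.log B - Real.log (b + 1)) + c := by
    have h7 : (b : ℝ) * (Real.log B - Real.log b) ≤ (b + 1) * (Real.log B - Real.log (b + 1)) + 1 := by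
      nlinarith
    have h8 := mul_le_mul_of_nonneg_left h7 hc
    nlinarith
  linarith

lemma gg_trans (c : ℝ) (hc : 0 ≤ c) (B b k : ℕ) (hk : 2 ≤ k) (hb : 1 ≤ b) (hB : 1 ≤ B) (η : ℝ) (hη : 0 ≤ η)
    (h : c * Real.log k ≤ (1 - 1 / k) * η) :
    gg c B b ≤ gg c B (k * b) / k + (1 - 1 / k) * η * b := by
  have hb0 : (0 : ℝ) < b := by exact_mod_cast hb
  have hkR : (2 : ℝ) ≤ k := by exact_mod_cast hk
  have hk0 : (0 : ℝ) < k := by linarith
  have h0 := gg_nonneg c B (k * b)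
  have h1 : c * ((k * b : ℕ) : ℝ) * (Real.log B - Real.log ((k * b : ℕ) : ℝ)) ≤ gg c B (k * b) := le_max_right _ _
  have h2 : 0 ≤ (1 - 1 / (k : ℝ)) * η * b := by
    have : (1 : ℝ) / k ≤ 1 := by rw [div_le_one hk0]; linarith
    have h3 : 0 ≤ 1 - 1 / (k : ℝ) := by linarith
    positivity
  have h3 : 0 ≤ gg c B (k * b) / k := div_nonneg h0 hk0.le
  have e : gg c B b = max 0 (c * b * (Real.log B - Real.log b)) := rfl
  rw [e]
  refine max_le (by linarith) ?_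
  push_cast at h1
  rw [Real.log_mul hk0.ne' hb0.ne'] at h1
  have h4 : c * b * (Real.log B - Real.log b) =
      (c * (k * b) * (Real.log B - (Real.log k + Real.log b))) / k + c * Real.log k * b := by
    field_simp
    ring
  rw [h4]
  refine add_le_add (div_le_div_of_nonneg_right h1 hk0.le) ?_
  exact mul_le_mul_of_nonneg_right h hb0.le

lemma Jm_trivial (k s X : ℕ) : Jm k s X ≤ X ^ (2 * s) := by
  unfold Jm
  refine (Finset.card_filter_le _ _).trans ?_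
  rw [Finset.card_product, card_bx, ← pow_add]
  exact le_of_eq (by congr 1; ring)

lemma MVT_mono {k s : ℕ} {η η' C : ℝ} (h : MVT k s η C) (hη : η ≤ η') (hC : 0 ≤ C) : MVT k s η' C := by
  intro X hX
  refine (h X hX).trans (mul_le_mul_of_nonneg_left ?_ hC)
  exact Real.rpow_le_rpow_of_exponent_le (by exact_mod_cast hX) (by linarith)

theorem mvt_step (k : ℕ) (hk : 2 ≤ k) (η0 : ℝ) (hη0 : 0 < η0) : ∃ δ : ℝ, 0 < δ ∧ δ ≤ 1 ∧
    ∀ η CJ : ℝ, η0 ≤ η → 1 ≤ CJ → MVT k ((k + 1) * k) η CJ →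
      ∃ C' : ℝ, 1 ≤ C' ∧ MVT k ((k + 1) * k) (η - δ) C' := by
  have hkR : (2 : ℝ) ≤ k := by exact_mod_cast hk
  have hk0 : (0 : ℝ) < k := by linarith
  have hlogk : 0 < Real.log k := Real.log_pos (by linarith)
  have h1k : 0 < 1 - 1 / (k : ℝ) := by
    have : (1 : ℝ) / k ≤ 1 / 2 := one_div_le_one_div_of_le (by norm_num) hkR
    linarith
  obtain ⟨c, hc⟩ : ∃ c : ℝ, c = min (1 / 2) ((1 - 1 / (k : ℝ)) * η0 / Real.log k) := ⟨_, rfl⟩
  have hc0 : 0 < c := by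
    rw [hc]
    exact lt_min (by norm_num) (by positivity)
  have hc2 : c ≤ 1 / 2 := by rw [hc]; exact min_le_left _ _
  have hclog : c * Real.log k ≤ (1 - 1 / (k : ℝ)) * η0 := by
    have : c ≤ (1 - 1 / (k : ℝ)) * η0 / Real.log k := by rw [hc]; exact min_le_right _ _
    rwa [le_div_iff₀ hlogk] at this
  obtain ⟨κ0, hκ0⟩ : ∃ κ0 : ℝ, κ0 = (k : ℝ) * (k + 1) / 2 := ⟨_, rfl⟩
  obtain ⟨B, hB⟩ : ∃ B : ℕ, Real.exp ((κ0 + 1) / c) ≤ B := exists_nat_ge _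
  have hB1 : 1 ≤ B := by
    have h1 : (0 : ℝ) < B := lt_of_lt_of_le (Real.exp_pos _) hB
    exact_mod_cast h1
  have hlogB : κ0 + 1 ≤ c * Real.log B := by
    have h1 : (κ0 + 1) / c ≤ Real.log B := by
      rw [Real.le_log_iff_exp_le (by exact_mod_cast hB1)]
      exact hB
    rw [div_le_iff₀ hc0] at h1
    linarith
  obtain ⟨n, hn⟩ : ∃ n, n = k * B := ⟨_, rfl⟩
  have hn1 : 1 ≤ n := by rw [hn]; exact Nat.mul_pos (by omega) hB1
  have hn0 : (0 : ℝ) < n := by exact_mod_cast hn1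
  obtain ⟨p0, hp0⟩ : ∃ p0 : ℕ, p0 = (2 * (2 * k ^ 2) ^ (k ^ 2)) ^ 2 := ⟨_, rfl⟩
  have hp0k : k < p0 := by
    have h1 : 2 * k ^ 2 ≤ (2 * k ^ 2) ^ (k ^ 2) := Nat.le_self_pow (by positivity) _
    have h2 : k ≤ k ^ 2 := Nat.le_self_pow (by norm_num) _
    rw [hp0]
    have h3 : 2 * (2 * k ^ 2) ^ (k ^ 2) ≤ (2 * (2 * k ^ 2) ^ (k ^ 2)) ^ 2 := Nat.le_self_pow (by norm_num) _
    omega
  refine ⟨1 / n, by positivity, by rw [div_le_one hn0]; exact_mod_cast hn1, ?_⟩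
  intro η CJ hη hCJ hJ
  have hηp : 0 ≤ η := by linarith
  obtain ⟨s, hs⟩ : ∃ s, s = (k + 1) * k := ⟨_, rfl⟩
  have hlam : 0 ≤ lam k η := by rw [lam_eq]; positivity
  obtain ⟨D, hD⟩ : ∃ D, D = CJ * 2 ^ lam k η := ⟨_, rfl⟩
  have hD0 : 0 < D := by rw [hD]; positivity
  obtain ⟨c1, hc1⟩ : ∃ c1 : ℝ, c1 = 2 * (4 * (k : ℝ)) ^ k := ⟨_, rfl⟩
  obtain ⟨A, hA⟩ : ∃ A, A = c1 ^ 2 * D := ⟨_, rfl⟩
  have hA0 : 0 ≤ A := by rw [hA]; positivity
  refine ⟨(4 * A + (2 * (k : ℝ) ^ 2) ^ s * D) * 2 + (2 * (p0 : ℝ)) ^ (n * (2 * s)), ?_, ?_⟩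
  · have h1 : (1 : ℝ) ≤ (2 * (p0 : ℝ)) ^ (n * (2 * s)) := by
      refine one_le_pow₀ ?_
      have : (1 : ℝ) ≤ p0 := by exact_mod_cast (by omega : 1 ≤ p0)
      linarith
    have h2 : 0 ≤ (4 * A + (2 * (k : ℝ) ^ 2) ^ s * D) * 2 := by positivity
    linarith
  intro X hX
  have hXR : (1 : ℝ) ≤ X := by exact_mod_cast hX
  have hX0 : (0 : ℝ) < X := by linarith
  have hexp : 2 * (((k + 1) * k : ℕ) : ℝ) - (k : ℝ) * (k + 1) / 2 + (η - 1 / n) = lam k η - 1 / n := by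
    unfold lam; ring
  rw [hexp]
  have hn11 : (1 : ℝ) / n ≤ 1 := by rw [div_le_one hn0]; exact_mod_cast hn1
  have hlam1 : 0 ≤ lam k η - 1 / n := by
    rw [lam_eq]
    nlinarith
  have hXe1 : (1 : ℝ) ≤ (X : ℝ) ^ (lam k η - 1 / n) := Real.one_le_rpow hXR hlam1
  obtain ⟨w, hw1, hw2⟩ := exists_root n X hn1
  rcases lt_or_ge w (2 * p0) with hw | hw
  · -- small `X`
    have h1 : (Jm k ((k + 1) * k) X : ℝ) ≤ (2 * (p0 : ℝ)) ^ (n * (2 * s)) := by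
      have h2 := Jm_trivial k ((k + 1) * k) X
      have h3 : X ≤ (2 * p0) ^ n := hw2.le.trans (Nat.pow_le_pow_left (by omega) _)
      have h4 : Jm k ((k + 1) * k) X ≤ (2 * p0) ^ (n * (2 * s)) := by
        rw [pow_mul, hs]
        exact h2.trans (Nat.pow_le_pow_left h3 _)
      exact_mod_cast h4
    have h2 : 0 ≤ (4 * A + (2 * (k : ℝ) ^ 2) ^ s * D) * 2 := by positivity
    have h3 : (0 : ℝ) ≤ (2 * (p0 : ℝ)) ^ (n * (2 * s)) := by positivity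
    calc (Jm k ((k + 1) * k) X : ℝ) ≤ ((4 * A + (2 * (k : ℝ) ^ 2) ^ s * D) * 2 + (2 * (p0 : ℝ)) ^ (n * (2 * s))) * 1 := by
          linarith
      _ ≤ _ := mul_le_mul_of_nonneg_left hXe1 (by linarith)
  · -- large `X`
    have hw0 : w / 2 ≠ 0 := by omega
    obtain ⟨p, hp, hp2, hp3⟩ := Nat.exists_prime_lt_and_le_two_mul (w / 2) hw0
    have hpw : p ≤ w := by omega
    have hwp : w + 1 ≤ 2 * p := by omega
    have hpp0 : p0 ≤ p := by omega
    have hpk : k < p := by omega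
    have hp1 : 1 ≤ p := hp.one_le
    have hpR0 : (0 : ℝ) < p := by exact_mod_cast hp.pos
    have hpR1 : (1 : ℝ) ≤ p := by exact_mod_cast hp1
    have hpX : p ^ (k * B) ≤ X := by
      rw [← hn]
      exact (Nat.pow_le_pow_left hpw _).trans hw1
    have hpbig : 2 * (2 * (k : ℝ) ^ 2) ^ (k ^ 2) ≤ (p : ℝ) ^ (1 / 2 : ℝ) := by
      rw [← Real.sqrt_eq_rpow]
      refine Real.le_sqrt_of_sq_le ?_
      have : ((2 * (2 * k ^ 2) ^ (k ^ 2)) ^ 2 : ℕ) ≤ p := by rw [← hp0]; exact hpp0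
      exact_mod_cast this
    obtain ⟨N, hN⟩ : ∃ N, N = (k + 1) * k * X ^ k + 1 := ⟨_, rfl⟩
    have hNN : (k + 1) * k * X ^ k < N := by omega
    have hcl := claim k B p X N hk hX hNN hp hpk hpX η CJ hηp hCJ hJ (gg c B) (gg_nonneg c B)
      (fun b hb => gg_zero c hc0.le B b hB1 hb) (fun b hb hbB => gg_step c hc0.le hc2 B b hb hbB)
      (fun b hb => gg_trans c hc0.le B b k hk hb hB1 η hηp (hclog.trans
        (mul_le_mul_of_nonneg_left hη h1k.le))) hpbig A D c1 hD hc1 hA (k * B) 1 le_rfl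
      (by rw [← hn]; exact hn1) (by omega) 0 (by norm_num) 0
    obtain ⟨Y, hY⟩ : ∃ Y, Y = (X : ℝ) ^ lam k η := ⟨_, rfl⟩
    have hY0 : 0 < Y := by rw [hY]; positivity
    rw [← hY] at hcl
    have hst := start_ineq k N X p hk hX hNN hp1 (A * (Y * (p : ℝ) ^ (me k 0 1 - gg c B 1)))
      (by positivity) hcl
    have hJs := J_scaled k p X 1 hp1 hX (by
      refine le_trans (Nat.pow_le_pow_right hp1 ?_) hpX
      rw [← hn]; exact hn1) η CJ hηp hCJ hJ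
    rw [← hD, ← hY, pow_one] at hJs
    have hg1 : κ0 + 1 ≤ gg c B 1 := by
      refine hlogB.trans ?_
      unfold gg
      refine le_max_of_le_right (le_of_eq ?_)
      push_cast
      rw [Real.log_one]
      ring
    have hpinv : (p : ℝ) ^ (-1 : ℝ) ≤ 2 * (X : ℝ) ^ (-(1 / n) : ℝ) := by
      have h1 : (X : ℝ) ≤ (2 * (p : ℝ)) ^ n := by
        have : X ≤ (2 * p) ^ n := hw2.le.trans (Nat.pow_le_pow_left hwp _)
        exact_mod_cast this
      have h2 : (X : ℝ) ^ (1 / n : ℝ) ≤ 2 * p := by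
        have h3 := Real.rpow_le_rpow hX0.le h1 (by positivity : (0 : ℝ) ≤ 1 / n)
        rw [← Real.rpow_natCast, ← Real.rpow_mul (by positivity)] at h3
        have h4 : (n : ℝ) * (1 / n) = 1 := by field_simp
        rwa [h4, Real.rpow_one] at h3
      rw [Real.rpow_neg_one, Real.rpow_neg hX0.le]
      have h5 : (0 : ℝ) < (X : ℝ) ^ (1 / n : ℝ) := by positivity
      rw [← div_eq_mul_inv, inv_eq_one_div, div_le_div_iff₀ hpR0 h5, one_mul]
      exact h2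
    have hE1 : (p : ℝ) ^ (2 * k ^ 2) * (p : ℝ) ^ (me k 0 1 - gg c B 1) ≤ (p : ℝ) ^ (-1 : ℝ) := by
      rw [← Real.rpow_natCast, ← Real.rpow_add hpR0]
      refine Real.rpow_le_rpow_of_exponent_le hpR1 ?_
      unfold me
      rw [hκ0] at hg1
      push_cast
      linarith
    have hE2 : (p : ℝ) ^ s * (p : ℝ) ^ (-(lam k η * ((1 : ℕ) : ℝ))) ≤ (p : ℝ) ^ (-1 : ℝ) := by
      rw [← Real.rpow_natCast, ← Real.rpow_add hpR0]
      refine Real.rpow_le_rpow_of_exponent_le hpR1 ?_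
      rw [hs, lam_eq]
      push_cast
      nlinarith
    have hmain : (Jm k ((k + 1) * k) X : ℝ) ≤ (4 * A + (2 * (k : ℝ) ^ 2) ^ s * D) * (Y * (p : ℝ) ^ (-1 : ℝ)) := by
      refine hst.trans ?_
      rw [← hs] at hJs ⊢
      have h1 : 4 * ((p : ℝ) ^ (2 * k ^ 2) * (A * (Y * (p : ℝ) ^ (me k 0 1 - gg c B 1)))) ≤
          4 * A * (Y * (p : ℝ) ^ (-1 : ℝ)) := by
        calc 4 * ((p : ℝ) ^ (2 * k ^ 2) * (A * (Y * (p : ℝ) ^ (me k 0 1 - gg c B 1)))) =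
            4 * A * (Y * ((p : ℝ) ^ (2 * k ^ 2) * (p : ℝ) ^ (me k 0 1 - gg c B 1))) := by ring
          _ ≤ _ := by gcongr
      have h2 : (2 * (k : ℝ) ^ 2) ^ s * ((p : ℝ) ^ s * (Jm k s (X / p + 1) : ℝ)) ≤
          (2 * (k : ℝ) ^ 2) ^ s * D * (Y * (p : ℝ) ^ (-1 : ℝ)) := by
        calc (2 * (k : ℝ) ^ 2) ^ s * ((p : ℝ) ^ s * (Jm k s (X / p + 1) : ℝ))
            ≤ (2 * (k : ℝ) ^ 2) ^ s * ((p : ℝ) ^ s * (D * (Y * (p : ℝ) ^ (-(lam k η * ((1 : ℕ) : ℝ)))))) := by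
              gcongr
          _ = (2 * (k : ℝ) ^ 2) ^ s * D * (Y * ((p : ℝ) ^ s * (p : ℝ) ^ (-(lam k η * ((1 : ℕ) : ℝ))))) := by ring
          _ ≤ _ := by gcongr
      rw [add_mul]
      exact add_le_add h1 h2
    have hXsplit : (X : ℝ) ^ (lam k η - 1 / n) = Y * (X : ℝ) ^ (-(1 / n) : ℝ) := by
      rw [hY, ← Real.rpow_add hX0]
      congr 1
    have hc0' : 0 ≤ 4 * A + (2 * (k : ℝ) ^ 2) ^ s * D := by positivity
    have hp00 : (0 : ℝ) ≤ (2 * (p0 : ℝ)) ^ (n * (2 * s)) := by positivity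
    calc (Jm k ((k + 1) * k) X : ℝ) ≤ (4 * A + (2 * (k : ℝ) ^ 2) ^ s * D) * (Y * (p : ℝ) ^ (-1 : ℝ)) := hmain
      _ ≤ (4 * A + (2 * (k : ℝ) ^ 2) ^ s * D) * (Y * (2 * (X : ℝ) ^ (-(1 / n) : ℝ))) :=
          mul_le_mul_of_nonneg_left (mul_le_mul_of_nonneg_left hpinv hY0.le) hc0'
      _ = (4 * A + (2 * (k : ℝ) ^ 2) ^ s * D) * 2 * (X : ℝ) ^ (lam k η - 1 / n) := by
          rw [hXsplit]; ring
      _ ≤ _ := by
          refine mul_le_mul_of_nonneg_right ?_ (by linarith)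
          linarith

/-- Vinogradov's mean value theorem for `s = k (k + 1)`. -/
theorem vmvt_ec (k : ℕ) (hk : 2 ≤ k) (η0 : ℝ) (hη0 : 0 < η0) :
    ∃ C : ℝ, 1 ≤ C ∧ MVT k ((k + 1) * k) η0 C := by
  obtain ⟨δ, hδ0, hδ1, hstep⟩ := mvt_step k hk η0 hη0
  obtain ⟨κ0, hκ0⟩ : ∃ κ0 : ℝ, κ0 = (k : ℝ) * (k + 1) / 2 := ⟨_, rfl⟩
  have key : ∀ n : ℕ, ∃ C : ℝ, 1 ≤ C ∧ MVT k ((k + 1) * k) (max η0 (κ0 - n * δ)) C := by
    intro n
    induction n with
    | zero =>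
      refine ⟨1, le_rfl, ?_⟩
      intro X hX
      have hXR : (1 : ℝ) ≤ X := by exact_mod_cast hX
      have h1 := Jm_trivial k ((k + 1) * k) X
      have h2 : (Jm k ((k + 1) * k) X : ℝ) ≤ (X : ℝ) ^ (2 * ((k + 1) * k)) := by exact_mod_cast h1
      rw [one_mul]
      refine h2.trans ?_
      rw [← Real.rpow_natCast]
      refine Real.rpow_le_rpow_of_exponent_le hXR ?_
      have h3 : κ0 ≤ max η0 (κ0 - ((0 : ℕ) : ℝ) * δ) := by
        refine le_max_of_le_right ?_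
        push_cast
        linarith
      rw [hκ0] at h3 ⊢
      push_cast at h3 ⊢
      linarith
    | succ n ih =>
      obtain ⟨C, hC, hJ⟩ := ih
      obtain ⟨C', hC', hJ'⟩ := hstep _ C (le_max_left _ _) hC hJ
      refine ⟨C', hC', MVT_mono hJ' ?_ (by linarith)⟩
      have h1 : max η0 (κ0 - n * δ) - δ = max (η0 - δ) (κ0 - n * δ - δ) := by
        rw [max_sub_sub_right]
      rw [h1]
      refine max_le_max (by linarith) (le_of_eq ?_)
      push_cast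
      ring
  obtain ⟨n, hn⟩ : ∃ n : ℕ, κ0 / δ ≤ n := exists_nat_ge _
  obtain ⟨C, hC, hJ⟩ := key n
  refine ⟨C, hC, ?_⟩
  have h1 : max η0 (κ0 - n * δ) = η0 := by
    refine max_eq_left ?_
    rw [div_le_iff₀ hδ0] at hn
    linarith
  rwa [h1] at hJ

end Pool.Agent.helper132_ec
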